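import Pool.Agent.Lib_helper26.TriRead.Main

namespace Pool.Agent.Lib_helper26.Superseded.ReadRPrograms

open Pool.Agent.Lib_helper26.TriRead

/-- A nondeterministic program with random access to the adjacency matrix, which on every syntactic
accepting path reads the adjacency bit `e` at most `R e` times, with `∑ e, R e ≤ r * n ^ 2`, and
which accepts exactly the triangle-free graphs among the graphs with `n` vertices and at most
`m ≤ n ^ (3 / 2)` edges, needs `m / C ^ r - 1` bits of memory. -/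
theorem result : ∃ C : ℕ, 0 < C ∧ ∀ n m r b : ℕ, m ^ 2 ≤ n ^ 3 → 1 ≤ r → C * r ^ 2 * b ≤ n ^ 2 →
    ∀ (V : Type) [Fintype V] (P : Prog (Sym2 (Fin n)) V) (R : Sym2 (Fin n) → ℕ),
      P.ReadBound R → ∑ e, R e ≤ r * n ^ 2 → P.ChunkAtMost b →
      (∀ G : SimpleGraph (Fin n), G.edgeSet.ncard ≤ m →
        (P.Accepts G.edgeSet ↔ G.CliqueFree 3)) →
      (m : ℝ) ≤ (C : ℝ) ^ r * (Real.logb 2 (Fintype.card V) + 1) := by
  obtain ⟨C, hC, h⟩ := main
  refine ⟨C, hC, ?_⟩
  intro n m r b hm hr hb V _ P R hR hsum hchunk hP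
  have := h n m r b hm hr hb Unit V (fun _ => P) (fun _ => ⟨R, hR, hsum⟩) (fun _ => hchunk) (by
    intro G hG
    rw [← hP G hG]
    exact ⟨fun ⟨_, h⟩ => h, fun h => ⟨(), h⟩⟩)
  simpa using this

end Pool.Agent.Lib_helper26.Superseded.ReadRPrograms
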