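import Mathlib

/-!
# F-pure thresholds of maximal ideals of non-ℚ-Gorenstein toric rings

Let `σ` be a strongly convex full-dimensional rational polyhedral cone in `ℝ^d`, with primitive ray
generators `v_i`, let `k` be a field of characteristic `p` and let `R` be the local ring at the
torus-fixed point of the affine toric variety `Spec k[σ^∨ ∩ ℤ^d]`.  We prove that, if `R` is not
ℚ-Gorenstein, the F-pure threshold of the maximal ideal of `R` is at most `d - 3/2`, and that this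
value is attained for every `d ≥ 3` and every field of positive characteristic.
-/

open scoped Matrix

namespace Pool.Agent.Lib_helper26.Superseded.ToricMax

/-- A strongly convex full-dimensional rational polyhedral cone `σ` in `ℝ^d`, given by the primitive
generators `v i` of its rays.
* `full`: the `v i` span `ℝ^d`;
* `pointed`: `σ` is strongly convex (some linear form is positive on all rays);
* `primitive`: every `v i` is a primitive lattice vector;
* `extremal`: every `v i` spans an exposed ray of `σ`, distinct from the rays of the other `v j`. -/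
structure Cone (d : ℕ) where
  /-- index set of the rays -/
  ι : Type
  /-- there are finitely many rays -/
  fin : Fintype ι
  /-- primitive generator of the ray -/
  v : ι → Fin d → ℤ
  full : ∀ g : Fin d → ℤ, (∀ i, g ⬝ᵥ v i = 0) → g = 0
  pointed : ∃ g : Fin d → ℤ, ∀ i, 0 < g ⬝ᵥ v i
  primitive : ∀ i, ∃ g : Fin d → ℤ, g ⬝ᵥ v i = 1
  extremal : ∀ i, ∃ g : Fin d → ℤ, g ⬝ᵥ v i = 0 ∧ ∀ j, j ≠ i → 0 < g ⬝ᵥ v j

attribute [instance] Cone.fin

namespace Cone

variable {d : ℕ} (σ : Cone d)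

/-- The toric variety of `σ` is ℚ-Gorenstein: there is `u` in `ℚ^d` with `⟨u, v i⟩ = 1` for every
ray (equivalently, a positive multiple of the canonical divisor `- ∑ D_i` is the divisor of a
character). -/
def IsQGorenstein : Prop := ∃ u : Fin d → ℚ, ∀ i, ∑ j, u j * (σ.v i j : ℚ) = 1

/-- The semigroup `σ^∨ ∩ ℤ^d` of lattice points that are nonnegative on all rays. -/
def dual : AddSubmonoid (Fin d → ℤ) where
  carrier := {g | ∀ i, 0 ≤ g ⬝ᵥ σ.v i}
  zero_mem' := by intro i; simp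
  add_mem' := by intro a b ha hb i; rw [add_dotProduct]; exact add_nonneg (ha i) (hb i)

lemma dual_add_eq_zero (g h : σ.dual) (hgh : g + h = 0) : g = 0 ∧ h = 0 := by
  have h1 : ∀ i, (g : Fin d → ℤ) ⬝ᵥ σ.v i + (h : Fin d → ℤ) ⬝ᵥ σ.v i = 0 := by
    intro i
    rw [← add_dotProduct]
    have : ((g : Fin d → ℤ) + (h : Fin d → ℤ)) = 0 := by
      have := congrArg (Subtype.val) hgh
      simpa using this
    rw [this]; simp
  constructor
  · apply Subtype.ext
    apply σ.full
    intro i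
    have h2 := h1 i
    have h3 := g.2 i
    have h4 := h.2 i
    linarith
  · apply Subtype.ext
    apply σ.full
    intro i
    have h2 := h1 i
    have h3 := g.2 i
    have h4 := h.2 i
    linarith

open scoped Classical in
/-- the function on `σ^∨ ∩ ℤ^d` (written multiplicatively) with value `1` at `0` and `0` elsewhere -/
noncomputable def originFun (k : Type) [Field k] (g : Multiplicative σ.dual) : k :=
  if Multiplicative.toAdd g = 0 then 1 else 0

lemma originFun_one (k : Type) [Field k] : σ.originFun k 1 = 1 := by simp [originFun]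

lemma originFun_mul (k : Type) [Field k] (g h : Multiplicative σ.dual) :
    σ.originFun k (g * h) = σ.originFun k g * σ.originFun k h := by
  classical
  unfold originFun
  by_cases h1 : Multiplicative.toAdd g = 0
  · simp [h1]
  · have h2 : Multiplicative.toAdd g + Multiplicative.toAdd h ≠ 0 := fun hc =>
      h1 (σ.dual_add_eq_zero _ _ hc).1
    simp [h1, h2]

/-- `originFun` as a monoid homomorphism -/
noncomputable def originHom (k : Type) [Field k] : Multiplicative σ.dual →* k :=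
  ⟨⟨σ.originFun k, σ.originFun_one k⟩, σ.originFun_mul k⟩

/-- the `k`-algebra map `k[σ^∨ ∩ ℤ^d] → k` sending `x^g` to `0` for `g ≠ 0` and `x^0` to `1` -/
noncomputable def augmentation (k : Type) [Field k] : AddMonoidAlgebra k σ.dual →ₐ[k] k :=
  AddMonoidAlgebra.lift k k σ.dual (σ.originHom k)

open AddMonoidAlgebra in
lemma augmentation_single (k : Type) [Field k] (g : σ.dual) (c : k) :
    σ.augmentation k (single g c) = by classical exact if g = 0 then c else 0 := by
  classical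
  rw [Cone.augmentation, AddMonoidAlgebra.lift_single]
  change c • σ.originFun k (Multiplicative.ofAdd g) = _
  rw [Cone.originFun]
  by_cases h : g = 0
  · simp [h]
  · simp [h]

open AddMonoidAlgebra in
lemma augmentation_eq_coeff (k : Type) [Field k] (b : AddMonoidAlgebra k σ.dual) :
    σ.augmentation k b = b.coeff 0 := by
  classical
  have h : (σ.augmentation k : AddMonoidAlgebra k σ.dual →+ k) =
      (Finsupp.applyAddHom (0 : σ.dual)).comp (coeffAddEquiv (R := k) (M := σ.dual)).toAddMonoidHom := by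
    apply addMonoidHom_ext
    intro m r
    change σ.augmentation k (single m r) = (single m r).coeff 0
    rw [augmentation_single, coeff_single, Finsupp.single_apply]
  exact DFunLike.congr_fun h b

/-- The ideal of the torus-fixed point: the ideal of `k[σ^∨ ∩ ℤ^d]` generated by the monomials
`x^g`, `g ≠ 0`. -/
noncomputable def originIdeal (k : Type) [Field k] : Ideal (AddMonoidAlgebra k σ.dual) :=
  Ideal.span {x | ∃ g : σ.dual, g ≠ 0 ∧ AddMonoidAlgebra.single g 1 = x}

lemma mem_originIdeal (k : Type) [Field k] (b : AddMonoidAlgebra k σ.dual) :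
    b ∈ σ.originIdeal k ↔ b.coeff 0 = 0 := by
  classical
  rw [← augmentation_eq_coeff]
  constructor
  · intro hb
    have hle : σ.originIdeal k ≤ RingHom.ker (σ.augmentation k) := by
      rw [originIdeal, Ideal.span_le]
      rintro _ ⟨g, hg, rfl⟩
      change _ ∈ RingHom.ker _
      rw [RingHom.mem_ker, augmentation_single, if_neg hg]
    exact hle hb
  · intro hb
    rw [augmentation_eq_coeff] at hb
    rw [← AddMonoidAlgebra.sum_coeff_single b]
    refine Ideal.sum_mem _ fun g hg => ?_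
    have hg0 : g ≠ 0 := by
      rintro rfl
      exact (Finsupp.mem_support_iff.1 hg) hb
    have h1 : AddMonoidAlgebra.single g (b.coeff g) =
        AddMonoidAlgebra.single 0 (b.coeff g) * AddMonoidAlgebra.single g 1 := by
      rw [AddMonoidAlgebra.single_mul_single, zero_add, mul_one]
    rw [h1]
    exact Ideal.mul_mem_left _ _ (Ideal.subset_span ⟨g, hg0, rfl⟩)

lemma originIdeal_eq_ker (k : Type) [Field k] : σ.originIdeal k = RingHom.ker (σ.augmentation k) := by
  ext b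
  rw [RingHom.mem_ker, augmentation_eq_coeff, mem_originIdeal]

instance originIdeal_isPrime (k : Type) [Field k] : (σ.originIdeal k).IsPrime := by
  rw [originIdeal_eq_ker]
  exact RingHom.ker_isPrime (σ.augmentation k)

/-- The local ring of the affine toric variety `Spec k[σ^∨ ∩ ℤ^d]` at its torus-fixed point, that is,
the localisation of the semigroup algebra at the ideal `originIdeal`. -/
def ring (k : Type) [Field k] : Type := Localization.AtPrime (σ.originIdeal k)

noncomputable instance ringCommRing (k : Type) [Field k] : CommRing (σ.ring k) :=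
  OreLocalization.instCommRing

instance ringIsLocalRing (k : Type) [Field k] : IsLocalRing (σ.ring k) :=
  inferInstanceAs (IsLocalRing (Localization.AtPrime (σ.originIdeal k)))

noncomputable instance ringAlgebra (k : Type) [Field k] :
    Algebra (AddMonoidAlgebra k σ.dual) (σ.ring k) :=
  inferInstanceAs (Algebra _ (Localization.AtPrime (σ.originIdeal k)))

instance ringIsLocalization (k : Type) [Field k] :
    IsLocalization.AtPrime (σ.ring k) (σ.originIdeal k) :=
  inferInstanceAs (IsLocalization.AtPrime (Localization.AtPrime (σ.originIdeal k)) (σ.originIdeal k))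

end Cone

/-- The `R`-linear map `R → R^{1/q}`, `1 ↦ f^{1/q}`, splits: there is an `R`-linear map
`Φ : R^{1/q} → R` with `Φ (f^{1/q}) = 1`.  Here `Φ` is given by `φ x = Φ (x^{1/q})`, and
`R`-linearity of `Φ` says that `φ (a ^ q * x) = a * φ x`. -/
def FrobSplits (R : Type) [CommRing R] (q : ℕ) (f : R) : Prop :=
  ∃ φ : R →+ R, (∀ a x, φ (a ^ q * x) = a * φ x) ∧ φ f = 1

/-- The pair `(R, 𝔞^t)` is F-pure: for every sufficiently large `q = p^e` there is
`f ∈ 𝔞^⌈t(q-1)⌉` such that `R → R^{1/q}`, `1 ↦ f^{1/q}`, splits. -/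
def FPurePair (R : Type) [CommRing R] (p : ℕ) (𝔞 : Ideal R) (t : ℝ) : Prop :=
  ∃ e₀ : ℕ, ∀ e ≥ e₀, ∃ f ∈ 𝔞 ^ ⌈t * ((p : ℝ) ^ e - 1)⌉₊, FrobSplits R (p ^ e) f

/-- The F-pure threshold of `𝔞`: the supremum of all `t ≥ 0` such that `(R, 𝔞^t)` is F-pure. -/
noncomputable def fpt (R : Type) [CommRing R] (p : ℕ) (𝔞 : Ideal R) : ℝ :=
  sSup {t : ℝ | 0 ≤ t ∧ FPurePair R p 𝔞 t}

/-- The F-pure threshold `fpt(𝔪)` of the maximal ideal of the toric local ring of `σ` over `k`. -/
noncomputable def Cone.fptMax {d : ℕ} (σ : Cone d) (p : ℕ) (k : Type) [Field k] : ℝ :=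
  fpt (σ.ring k) p (IsLocalRing.maximalIdeal (σ.ring k))
lemma core (α1 α2 β1 β2 : ℤ) (h1 : α2 ≤ α1) (h2 : β2 ≤ β1) (p2 : 0 < α2) (q2 : 0 < β2)
    (hsum : β1 + β2 < α1 + α2) (hdiv : α2 ∣ α1 → α2 ∣ β1 → α2 ∣ β2) :
    ∃ y1 y2 z1 z2 : ℚ, 0 ≤ y1 ∧ 0 ≤ y2 ∧ 0 ≤ z1 ∧ 0 ≤ z2 ∧ y1 + y2 + z1 + z2 = 3 / 2 ∧
      ∀ a1 a2 b1 b2 : ℤ, 0 ≤ a1 → 0 ≤ a2 → 0 ≤ b1 → 0 ≤ b2 →
        α1 * a1 + α2 * a2 = β1 * b1 + β2 * b2 →
        (a1 ≠ 0 ∨ a2 ≠ 0 ∨ b1 ≠ 0 ∨ b2 ≠ 0) →
        1 ≤ y1 * a1 + y2 * a2 + z1 * b1 + z2 * b2 := by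
  have p1 : 0 < α1 := by linarith
  have q1 : 0 < β1 := by linarith
  -- b is nonzero
  have hb : ∀ a1 a2 b1 b2 : ℤ, 0 ≤ a1 → 0 ≤ a2 → 0 ≤ b1 → 0 ≤ b2 →
        α1 * a1 + α2 * a2 = β1 * b1 + β2 * b2 →
        (a1 ≠ 0 ∨ a2 ≠ 0 ∨ b1 ≠ 0 ∨ b2 ≠ 0) → 1 ≤ b1 + b2 := by
    intro a1 a2 b1 b2 ha1 ha2 hb1 hb2 heq hne
    by_contra hcon
    have e1 : b1 = 0 := by omega
    have e2 : b2 = 0 := by omega
    subst e1; subst e2
    have e3 : a1 = 0 := by nlinarith
    have e4 : a2 = 0 := by nlinarith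
    simp [e3, e4] at hne
  by_cases hd : α1 ∣ β1
  · obtain ⟨c, hc⟩ := hd
    have hc0 : 0 < c := by
      by_contra hcon
      have : c ≤ 0 := by omega
      nlinarith
    have hc1 : c = 1 := by
      by_contra hcon
      have : 2 ≤ c := by omega
      nlinarith
    subst hc1
    have hβ : β1 = α1 := by simpa using hc
    have hlt : β2 < α2 := by linarith
    refine ⟨1/2, 0, 1/2, 1/2, by norm_num, by norm_num, by norm_num, by norm_num, by norm_num, ?_⟩
    intro a1 a2 b1 b2 ha1 ha2 hb1 hb2 heq hne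
    have hbb := hb a1 a2 b1 b2 ha1 ha2 hb1 hb2 heq hne
    rcases (lt_or_eq_of_le ha1) with ha | ha
    · have h3 : (2:ℤ) ≤ a1 + b1 + b2 := by omega
      have h4 : (2:ℚ) ≤ a1 + b1 + b2 := by exact_mod_cast h3
      linarith
    · have h3 : (2:ℤ) ≤ b1 + b2 := by
        by_contra hcon
        have hs : b1 + b2 = 1 := by omega
        rcases (lt_or_eq_of_le hb1) with hbp | hbp
        · have e1 : b1 = 1 := by omega
          have e2 : b2 = 0 := by omega
          subst e1; subst e2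
          have h5 : α2 * a2 = α1 := by rw [← ha] at heq; linarith
          have h6 : α2 ∣ α1 := ⟨a2, h5.symm⟩
          have h7 : α2 ∣ β2 := hdiv h6 (hβ ▸ h6)
          have := Int.le_of_dvd q2 h7
          omega
        · have e2 : b2 = 1 := by omega
          subst e2
          have h5 : α2 * a2 = β2 := by rw [← ha, ← hbp] at heq; linarith
          have h6 : α2 ∣ β2 := ⟨a2, h5.symm⟩
          have := Int.le_of_dvd q2 h6
          omega
      have h4 : (2:ℚ) ≤ b1 + b2 := by exact_mod_cast h3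
      have h5 : (0:ℚ) ≤ a1 := by exact_mod_cast ha1
      linarith
  · refine ⟨0, 1/2, 1/2, 1/2, by norm_num, by norm_num, by norm_num, by norm_num, by norm_num, ?_⟩
    intro a1 a2 b1 b2 ha1 ha2 hb1 hb2 heq hne
    have hbb := hb a1 a2 b1 b2 ha1 ha2 hb1 hb2 heq hne
    rcases (lt_or_eq_of_le ha2) with ha | ha
    · have h3 : (2:ℤ) ≤ a2 + b1 + b2 := by omega
      have h4 : (2:ℚ) ≤ a2 + b1 + b2 := by exact_mod_cast h3
      linarith
    · have h3 : (2:ℤ) ≤ b1 + b2 := by
        by_contra hcon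
        have hs : b1 + b2 = 1 := by omega
        rcases (lt_or_eq_of_le hb1) with hbp | hbp
        · have e1 : b1 = 1 := by omega
          have e2 : b2 = 0 := by omega
          subst e1; subst e2
          exact hd ⟨a1, by rw [← ha] at heq; linarith⟩
        · have e2 : b2 = 1 := by omega
          subst e2
          have h5 : α1 * a1 = β2 := by rw [← ha, ← hbp] at heq; linarith
          have h6 : α1 ∣ β2 := ⟨a1, h5.symm⟩
          have := Int.le_of_dvd q2 h6
          omega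
      have h4 : (2:ℚ) ≤ b1 + b2 := by exact_mod_cast h3
      have h5 : (0:ℚ) ≤ a2 := by exact_mod_cast ha2
      linarith

/-- all orders -/
lemma core' (α1 α2 β1 β2 : ℤ) (p1 : 0 < α1) (p2 : 0 < α2) (q1 : 0 < β1) (q2 : 0 < β2)
    (hsum : β1 + β2 < α1 + α2)
    (hd1 : ∀ c : ℤ, c ∣ α1 → c ∣ α2 → c ∣ β1 → c ∣ β2)
    (hd2 : ∀ c : ℤ, c ∣ α1 → c ∣ α2 → c ∣ β2 → c ∣ β1) :
    ∃ y1 y2 z1 z2 : ℚ, 0 ≤ y1 ∧ 0 ≤ y2 ∧ 0 ≤ z1 ∧ 0 ≤ z2 ∧ y1 + y2 + z1 + z2 = 3 / 2 ∧
      ∀ a1 a2 b1 b2 : ℤ, 0 ≤ a1 → 0 ≤ a2 → 0 ≤ b1 → 0 ≤ b2 →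
        α1 * a1 + α2 * a2 = β1 * b1 + β2 * b2 →
        (a1 ≠ 0 ∨ a2 ≠ 0 ∨ b1 ≠ 0 ∨ b2 ≠ 0) →
        1 ≤ y1 * a1 + y2 * a2 + z1 * b1 + z2 * b2 := by
  rcases le_total α2 α1 with ha | ha <;> rcases le_total β2 β1 with hb | hb
  · exact core α1 α2 β1 β2 ha hb p2 q2 hsum (fun x y => hd1 α2 x dvd_rfl y)
  · obtain ⟨y1, y2, z1, z2, e1, e2, e3, e4, e5, e6⟩ :=
      core α1 α2 β2 β1 ha hb p2 q1 (by linarith) (fun x y => hd2 α2 x dvd_rfl y)
    refine ⟨y1, y2, z2, z1, e1, e2, e4, e3, by linarith, ?_⟩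
    intro a1 a2 b1 b2 ha1 ha2 hb1 hb2 heq hne
    have := e6 a1 a2 b2 b1 ha1 ha2 hb2 hb1 (by linarith) (by tauto)
    linarith
  · obtain ⟨y1, y2, z1, z2, e1, e2, e3, e4, e5, e6⟩ :=
      core α2 α1 β1 β2 ha hb p1 q2 (by linarith) (fun x y => hd1 α1 dvd_rfl x y)
    refine ⟨y2, y1, z1, z2, e2, e1, e3, e4, by linarith, ?_⟩
    intro a1 a2 b1 b2 ha1 ha2 hb1 hb2 heq hne
    have := e6 a2 a1 b1 b2 ha2 ha1 hb1 hb2 (by linarith) (by tauto)
    linarith
  · obtain ⟨y1, y2, z1, z2, e1, e2, e3, e4, e5, e6⟩ :=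
      core α2 α1 β2 β1 ha hb p1 q1 (by linarith) (fun x y => hd2 α1 dvd_rfl x y)
    refine ⟨y2, y1, z2, z1, e2, e1, e4, e3, by linarith, ?_⟩
    intro a1 a2 b1 b2 ha1 ha2 hb1 hb2 heq hne
    have := e6 a2 a1 b2 b1 ha2 ha1 hb2 hb1 (by linarith) (by tauto)
    linarith


open Finset

variable {d : ℕ} (σ : Cone d)

lemma exists_rel (h : ¬ σ.IsQGorenstein) :
    ∃ γ : σ.ι → ℚ, (∀ j, ∑ i, γ i * (σ.v i j : ℚ) = 0) ∧ ∑ i, γ i ≠ 0 := by
  classical
  let T : (Fin d → ℚ) →ₗ[ℚ] (σ.ι → ℚ) :=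
    { toFun := fun u i => ∑ j, u j * (σ.v i j : ℚ)
      map_add' := by
        intro u w; funext i
        simp [add_mul, Finset.sum_add_distrib]
      map_smul' := by
        intro c u; funext i
        simp [Finset.mul_sum, mul_assoc] }
  have h1 : (fun _ => (1:ℚ) : σ.ι → ℚ) ∉ LinearMap.range T := by
    rintro ⟨u, hu⟩
    exact h ⟨u, fun i => congrFun hu i⟩
  obtain ⟨f, hf1, hf2⟩ := Submodule.exists_le_ker_of_notMem h1
  have hfrep : ∀ x : σ.ι → ℚ, f x = ∑ i, f (Pi.single i 1) * x i := by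
    intro x
    conv_lhs => rw [pi_eq_sum_univ' x]
    rw [map_sum]
    refine Finset.sum_congr rfl fun i _ => ?_
    rw [map_smul, smul_eq_mul, mul_comm]
  refine ⟨fun i => f (Pi.single i 1), fun j => ?_, ?_⟩
  · have h2 : f (T (Pi.single j 1)) = 0 := hf2 (LinearMap.mem_range_self _ _)
    rw [hfrep] at h2
    rw [← h2]
    refine Finset.sum_congr rfl fun i _ => ?_
    congr 1
    change (σ.v i j : ℚ) = ∑ l, (Pi.single j 1 : Fin d → ℚ) l * (σ.v i l : ℚ)
    simp [Pi.single_apply]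
  · have h3 := hf1
    rw [hfrep] at h3
    simpa using h3

open scoped Classical in
/-- circuit data -/
lemma exists_circuit (h : ¬ σ.IsQGorenstein) :
    ∃ (C : Finset σ.ι) (γ : σ.ι → ℚ), (∀ i, i ∈ C ↔ γ i ≠ 0) ∧
      (∀ j, ∑ i, γ i * (σ.v i j : ℚ) = 0) ∧ ∑ i, γ i ≠ 0 ∧
      ∀ i₀ ∈ C, LinearIndepOn ℚ (fun i => (fun j => (σ.v i j : ℚ))) (↑(C.erase i₀) : Set σ.ι) := by
  classical
  let P : ℕ → Prop := fun n => ∃ γ : σ.ι → ℚ, (∀ j, ∑ i, γ i * (σ.v i j : ℚ) = 0) ∧
    ∑ i, γ i ≠ 0 ∧ (Finset.univ.filter (fun i => γ i ≠ 0)).card = n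
  have hP : ∃ n, P n := by
    obtain ⟨γ, h1, h2⟩ := exists_rel σ h
    exact ⟨_, γ, h1, h2, rfl⟩
  obtain ⟨γ, hrel, hsum, hcard⟩ := Nat.find_spec hP
  have hmin : ∀ γ' : σ.ι → ℚ, (∀ j, ∑ i, γ' i * (σ.v i j : ℚ) = 0) → ∑ i, γ' i ≠ 0 →
      (Finset.univ.filter (fun i => γ i ≠ 0)).card ≤ (Finset.univ.filter (fun i => γ' i ≠ 0)).card := by
    intro γ' h1 h2
    rw [hcard]
    exact Nat.find_min' hP ⟨γ', h1, h2, rfl⟩
  refine ⟨Finset.univ.filter (fun i => γ i ≠ 0), γ, by simp, hrel, hsum, ?_⟩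
  intro i₀ hi₀
  rw [linearIndepOn_finset_iff]
  intro c hc
  -- c as a relation
  set c' : σ.ι → ℚ := fun i => if i ∈ (Finset.univ.filter (fun i => γ i ≠ 0)).erase i₀ then c i else 0 with hc'
  have hrel' : ∀ j, ∑ i, c' i * (σ.v i j : ℚ) = 0 := by
    intro j
    have := congrFun hc j
    rw [Finset.sum_apply] at this
    simp only [Pi.smul_apply, smul_eq_mul, Pi.zero_apply] at this
    rw [← this, hc']
    simp only [ite_mul, zero_mul]
    rw [Finset.sum_ite_mem, Finset.univ_inter]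
  have hsupp : ∀ i, c' i ≠ 0 → i ≠ i₀ ∧ γ i ≠ 0 := by
    intro i hi
    have : i ∈ (Finset.univ.filter (fun i => γ i ≠ 0)).erase i₀ := by
      by_contra hcon
      exact hi (by simp only [hc']; rw [if_neg hcon])
    simpa using this
  have hγi₀ : γ i₀ ≠ 0 := by simpa using hi₀
  by_contra hcon
  push Not at hcon
  obtain ⟨i₁, hi₁, hci₁⟩ := hcon
  have hci₁' : c' i₁ ≠ 0 := by simp only [hc']; rw [if_pos hi₁]; exact hci₁
  by_cases hs : ∑ i, c' i = 0
  · -- subtract a multiple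
    set t := γ i₁ / c' i₁ with ht
    have h1 : ∀ j, ∑ i, (γ i - t * c' i) * (σ.v i j : ℚ) = 0 := by
      intro j
      have : ∑ i, (γ i - t * c' i) * (σ.v i j : ℚ)
          = ∑ i, γ i * (σ.v i j : ℚ) - t * ∑ i, c' i * (σ.v i j : ℚ) := by
        rw [Finset.mul_sum, ← Finset.sum_sub_distrib]
        exact Finset.sum_congr rfl fun i _ => by ring
      rw [this, hrel, hrel']; ring
    have h2 : ∑ i, (γ i - t * c' i) ≠ 0 := by
      rw [Finset.sum_sub_distrib, ← Finset.mul_sum, hs]; simpa using hsum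
    have h3 := hmin (fun i => γ i - t * c' i) h1 h2
    have h4 : (Finset.univ.filter (fun i => γ i - t * c' i ≠ 0)) ⊂ (Finset.univ.filter (fun i => γ i ≠ 0)) := by
      rw [Finset.ssubset_iff_of_subset]
      · refine ⟨i₁, by simpa using (hsupp i₁ hci₁').2, ?_⟩
        simp only [Finset.mem_filter, Finset.mem_univ, true_and, not_not]
        rw [ht]; field_simp; ring
      · intro i hi
        simp only [Finset.mem_filter, Finset.mem_univ, true_and] at hi ⊢
        intro h0
        by_cases hci : c' i = 0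
        · rw [h0, hci] at hi; simp at hi
        · exact (hsupp i hci).2 h0
    exact absurd (Finset.card_lt_card h4) (not_lt.mpr h3)
  · have h3 := hmin c' hrel' hs
    have h4 : (Finset.univ.filter (fun i => c' i ≠ 0)) ⊂ (Finset.univ.filter (fun i => γ i ≠ 0)) := by
      rw [Finset.ssubset_iff_of_subset]
      · refine ⟨i₀, hi₀, ?_⟩
        simp only [Finset.mem_filter, Finset.mem_univ, true_and, not_not]
        by_contra hcon
        exact (hsupp i₀ hcon).1 rfl
      · intro i hi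
        simp only [Finset.mem_filter, Finset.mem_univ, true_and] at hi ⊢
        exact (hsupp i hi).2
    exact absurd (Finset.card_lt_card h4) (not_lt.mpr h3)

open scoped Classical in
/-- completing the circuit -/
lemma exists_completion (h : ¬ σ.IsQGorenstein) :
    ∃ (C B : Finset σ.ι) (γ : σ.ι → ℚ), (∀ i, i ∈ C ↔ γ i ≠ 0) ∧ Disjoint C B ∧
      (∀ g : Fin d → ℤ, ∑ i, γ i * (g ⬝ᵥ σ.v i : ℤ) = 0) ∧ ∑ i, γ i ≠ 0 ∧
      B.card + C.card = d + 1 ∧
      ∀ g : Fin d → ℤ, (∀ i ∈ C ∪ B, g ⬝ᵥ σ.v i = 0) → g = 0 := by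
  classical
  obtain ⟨C, γ, hC, hrel, hsum, hli⟩ := exists_circuit σ h
  have hCne : C.Nonempty := by
    rw [Finset.nonempty_iff_ne_empty]
    intro h0
    apply hsum
    apply Finset.sum_eq_zero
    intro i _
    by_contra hcon
    have := (hC i).2 hcon
    rw [h0] at this
    simp at this
  obtain ⟨i₀, hi₀⟩ := hCne
  have hI := hli i₀ hi₀
  set w : σ.ι → (Fin d → ℚ) := fun i => (fun j => (σ.v i j : ℚ)) with hw
  have hsub : (↑(C.erase i₀) : Set σ.ι) ⊆ Set.univ := Set.subset_univ _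
  set b := hI.extend hsub with hb
  have hb1 : (↑(C.erase i₀) : Set σ.ι) ⊆ b := hI.subset_extend hsub
  have hb2 : LinearIndepOn ℚ w b := hI.linearIndepOn_extend hsub
  have hb3 : w '' Set.univ ⊆ Submodule.span ℚ (w '' b) := hI.image_subset_span_image_extend hsub
  -- i₀ not in b
  have hi₀b : i₀ ∉ b := by
    intro hcon
    have hCb : (↑C : Set σ.ι) ⊆ b := by
      intro i hi
      by_cases hii : i = i₀
      · rw [hii]; exact hcon
      · exact hb1 (by simpa [hii] using hi)
    have hLI := hb2.mono hCb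
    rw [linearIndepOn_finset_iff] at hLI
    have := hLI γ (by
      funext j
      rw [Finset.sum_apply]
      simp only [Pi.smul_apply, smul_eq_mul, Pi.zero_apply, hw]
      rw [← hrel j]
      apply Finset.sum_subset (Finset.subset_univ _)
      intro i _ hi
      have : γ i = 0 := by
        by_contra hc
        exact hi ((hC i).2 hc)
      rw [this]; ring) i₀ hi₀
    exact (hC i₀).1 hi₀ this
  -- span is everything
  have hspan : Submodule.span ℚ (w '' b) = ⊤ := by
    by_contra hne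
    obtain ⟨x, hx⟩ : ∃ x, x ∉ Submodule.span ℚ (w '' b) := by
      by_contra hcon
      push Not at hcon
      exact hne (eq_top_iff.2 fun x _ => hcon x)
    obtain ⟨f, hf1, hf2⟩ := Submodule.exists_le_ker_of_notMem hx
    have hfrep : ∀ x : Fin d → ℚ, f x = ∑ i, f (Pi.single i 1) * x i := by
      intro x
      conv_lhs => rw [pi_eq_sum_univ' x]
      rw [map_sum]
      refine Finset.sum_congr rfl fun i _ => ?_
      rw [map_smul, smul_eq_mul, mul_comm]
    have hf3 : ∀ i, f (w i) = 0 := fun i => hf2 (hb3 ⟨i, trivial, rfl⟩)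
    -- clear denominators
    set D : ℤ := ∏ j, ((f (Pi.single j 1)).den : ℤ) with hD
    have hD0 : D ≠ 0 := Finset.prod_ne_zero_iff.2 fun j _ => by
      exact_mod_cast (f (Pi.single j 1)).den_nz
    have hint : ∀ j, ∃ m : ℤ, (m : ℚ) = D * f (Pi.single j 1) := by
      intro j
      have h1 : D = ((f (Pi.single j 1)).den : ℤ) * ∏ l ∈ Finset.univ.erase j, ((f (Pi.single l 1)).den : ℤ) := by
        rw [hD, ← Finset.mul_prod_erase Finset.univ _ (Finset.mem_univ j)]
      refine ⟨(f (Pi.single j 1)).num * ∏ l ∈ Finset.univ.erase j, ((f (Pi.single l 1)).den : ℤ), ?_⟩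
      rw [h1]
      push_cast
      have h2 : ((f (Pi.single j 1)).den : ℚ) * f (Pi.single j 1) = (f (Pi.single j 1)).num := by
        rw [mul_comm]; exact Rat.mul_den_eq_num _
      rw [mul_right_comm, h2]
    choose m hm using hint
    have hg : m = 0 := by
      apply σ.full m
      intro i
      have h1 : ((m ⬝ᵥ σ.v i : ℤ) : ℚ) = D * f (w i) := by
        rw [hfrep (w i), Finset.mul_sum, dotProduct]
        push_cast
        refine Finset.sum_congr rfl fun j _ => ?_
        rw [hm j, hw]; ring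
      rw [hf3, mul_zero] at h1
      exact_mod_cast h1
    apply hf1
    rw [hfrep x]
    apply Finset.sum_eq_zero
    intro j _
    have h1 := hm j
    rw [hg] at h1
    have h2 : f (Pi.single j 1) = 0 := by
      have h3 : (D:ℚ) * f (Pi.single j 1) = 0 := by rw [← h1]; simp
      rcases mul_eq_zero.1 h3 with h4 | h4
      · exact absurd (by exact_mod_cast h4) hD0
      · exact h4
    rw [h2]; ring
  -- card of b
  have hbfin : b.Finite := Set.toFinite b
  have hbcard : hbfin.toFinset.card = d := by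
    have h1 : LinearIndependent ℚ (fun x : b => w x) := hb2
    let : Fintype b := hbfin.fintype
    have h2 := finrank_span_eq_card h1
    have h3 : Set.range (fun x : b => w x) = w '' b := by
      ext x; simp
    rw [h3, hspan, finrank_top] at h2
    rw [Module.finrank_fin_fun] at h2
    rw [Set.Finite.card_toFinset]
    convert h2.symm
  set B := hbfin.toFinset \ C with hB
  have hinter : hbfin.toFinset ∩ C = C.erase i₀ := by
    ext i
    simp only [Finset.mem_inter, Set.Finite.mem_toFinset, Finset.mem_erase]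
    constructor
    · rintro ⟨h1, h2⟩
      exact ⟨fun h3 => hi₀b (h3 ▸ h1), h2⟩
    · rintro ⟨h1, h2⟩
      exact ⟨hb1 (by simp [h1, h2]), h2⟩
  refine ⟨C, B, γ, hC, ?_, ?_, hsum, ?_, ?_⟩
  · rw [hB]; exact Finset.disjoint_sdiff
  · intro g
    have : ∀ i, γ i * ((g ⬝ᵥ σ.v i : ℤ) : ℚ) = ∑ j, (g j : ℚ) * (γ i * (σ.v i j : ℚ)) := by
      intro i
      rw [dotProduct]
      push_cast
      rw [Finset.mul_sum]
      exact Finset.sum_congr rfl fun j _ => by ring
    simp_rw [this]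
    rw [Finset.sum_comm]
    apply Finset.sum_eq_zero
    intro j _
    rw [← Finset.mul_sum, hrel, mul_zero]
  · have h1 : B.card + (hbfin.toFinset ∩ C).card = hbfin.toFinset.card := by
      rw [hB]; exact Finset.card_sdiff_add_card_inter _ _
    rw [hinter, hbcard, Finset.card_erase_of_mem hi₀] at h1
    have h2 : 0 < C.card := Finset.card_pos.2 ⟨i₀, hi₀⟩
    omega
  · intro g hg
    apply σ.full g
    -- functional
    let F : (Fin d → ℚ) →ₗ[ℚ] ℚ :=
      { toFun := fun x => ∑ j, (g j : ℚ) * x j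
        map_add' := by intro x y; simp [mul_add, Finset.sum_add_distrib]
        map_smul' := by
          intro c x
          simp only [Pi.smul_apply, smul_eq_mul, RingHom.id_apply, Finset.mul_sum]
          exact Finset.sum_congr rfl fun j _ => by ring }
    have hFw : ∀ i, F (w i) = ((g ⬝ᵥ σ.v i : ℤ) : ℚ) := by
      intro i
      change ∑ j, (g j : ℚ) * (σ.v i j : ℚ) = _
      rw [dotProduct]; push_cast; rfl
    have hF0 : ∀ i ∈ b, F (w i) = 0 := by
      intro i hi
      rw [hFw]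
      have : i ∈ C ∪ B := by
        rw [hB]
        simp [hi]
      rw [hg i this]; simp
    have hker : Submodule.span ℚ (w '' b) ≤ LinearMap.ker F := by
      rw [Submodule.span_le]
      rintro _ ⟨i, hi, rfl⟩
      exact hF0 i hi
    intro i
    have h1 : F (w i) = 0 := hker (by rw [hspan]; trivial)
    rw [hFw] at h1
    exact_mod_cast h1

open scoped Classical in
/-- weights on a circuit with two positive and two negative coefficients -/
lemma circuit_four (γ : σ.ι → ℚ) (i1 i2 j1 j2 : σ.ι)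
    (hd12 : i1 ≠ i2) (hd34 : j1 ≠ j2) (h13 : i1 ≠ j1) (h14 : i1 ≠ j2) (h23 : i2 ≠ j1) (h24 : i2 ≠ j2)
    (p1 : 0 < γ i1) (p2 : 0 < γ i2) (q1 : γ j1 < 0) (q2 : γ j2 < 0)
    (hz : ∀ i, i ≠ i1 → i ≠ i2 → i ≠ j1 → i ≠ j2 → γ i = 0)
    (hrel : ∀ g : Fin d → ℤ, ∑ i, γ i * (g ⬝ᵥ σ.v i : ℤ) = 0) (hsum : 0 < ∑ i, γ i) :
    ∃ y : σ.ι → ℚ, (∀ i, 0 ≤ y i) ∧ (∀ i, i ≠ i1 → i ≠ i2 → i ≠ j1 → i ≠ j2 → y i = 0) ∧
      ∑ i, y i = 3 / 2 ∧ ∀ g : Fin d → ℤ, (∀ i, 0 ≤ g ⬝ᵥ σ.v i) →
        (g ⬝ᵥ σ.v i1 ≠ 0 ∨ g ⬝ᵥ σ.v i2 ≠ 0 ∨ g ⬝ᵥ σ.v j1 ≠ 0 ∨ g ⬝ᵥ σ.v j2 ≠ 0) →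
        1 ≤ ∑ i, y i * (g ⬝ᵥ σ.v i : ℤ) := by
  have hsum4 : ∀ f : σ.ι → ℚ, (∀ i, i ≠ i1 → i ≠ i2 → i ≠ j1 → i ≠ j2 → f i = 0) →
      ∑ i, f i = f i1 + f i2 + f j1 + f j2 := by
    intro f hf
    have h1 : ∑ i, f i = ∑ i ∈ ({i1, i2, j1, j2} : Finset σ.ι), f i := by
      symm
      apply Finset.sum_subset (Finset.subset_univ _)
      intro i _ hi
      simp only [Finset.mem_insert, Finset.mem_singleton, not_or] at hi
      exact hf i hi.1 hi.2.1 hi.2.2.1 hi.2.2.2
    rw [h1, Finset.sum_insert (by simp [hd12, h13, h14]), Finset.sum_insert (by simp [h23, h24]),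
      Finset.sum_insert (by simp [hd34]), Finset.sum_singleton]
    ring
  -- integer coefficients
  set D : ℤ := (γ i1).den * (γ i2).den * (γ j1).den * (γ j2).den with hD
  have hDpos : 0 < D := by
    rw [hD]
    have a1 := (γ i1).pos
    have a2 := (γ i2).pos
    have a3 := (γ j1).pos
    have a4 := (γ j2).pos
    positivity
  have hDQ : (0:ℚ) < D := by exact_mod_cast hDpos
  obtain ⟨A1, hA1⟩ : ∃ m : ℤ, (m : ℚ) = D * γ i1 := ⟨(γ i1).num * ((γ i2).den * (γ j1).den * (γ j2).den), by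
    have h2 : ((γ i1).den : ℚ) * γ i1 = (γ i1).num := by rw [mul_comm]; exact Rat.mul_den_eq_num _
    rw [hD]; push_cast; rw [← h2]; ring⟩
  obtain ⟨A2, hA2⟩ : ∃ m : ℤ, (m : ℚ) = D * γ i2 := ⟨(γ i2).num * ((γ i1).den * (γ j1).den * (γ j2).den), by
    have h2 : ((γ i2).den : ℚ) * γ i2 = (γ i2).num := by rw [mul_comm]; exact Rat.mul_den_eq_num _
    rw [hD]; push_cast; rw [← h2]; ring⟩
  obtain ⟨B1, hB1⟩ : ∃ m : ℤ, (m : ℚ) = - (D * γ j1) := ⟨-((γ j1).num * ((γ i1).den * (γ i2).den * (γ j2).den)), by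
    have h2 : ((γ j1).den : ℚ) * γ j1 = (γ j1).num := by rw [mul_comm]; exact Rat.mul_den_eq_num _
    rw [hD]; push_cast; rw [← h2]; ring⟩
  obtain ⟨B2, hB2⟩ : ∃ m : ℤ, (m : ℚ) = - (D * γ j2) := ⟨-((γ j2).num * ((γ i1).den * (γ i2).den * (γ j1).den)), by
    have h2 : ((γ j2).den : ℚ) * γ j2 = (γ j2).num := by rw [mul_comm]; exact Rat.mul_den_eq_num _
    rw [hD]; push_cast; rw [← h2]; ring⟩
  have P1 : 0 < A1 := by
    have : (0:ℚ) < A1 := by rw [hA1]; positivity
    exact_mod_cast this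
  have P2 : 0 < A2 := by
    have : (0:ℚ) < A2 := by rw [hA2]; positivity
    exact_mod_cast this
  have Q1 : 0 < B1 := by
    have : (0:ℚ) < B1 := by rw [hB1]; nlinarith
    exact_mod_cast this
  have Q2 : 0 < B2 := by
    have : (0:ℚ) < B2 := by rw [hB2]; nlinarith
    exact_mod_cast this
  have hrelZ : ∀ g : Fin d → ℤ, A1 * (g ⬝ᵥ σ.v i1) + A2 * (g ⬝ᵥ σ.v i2)
      = B1 * (g ⬝ᵥ σ.v j1) + B2 * (g ⬝ᵥ σ.v j2) := by
    intro g
    have h1 := hrel g
    rw [hsum4 _ (by intro i a b c e; rw [hz i a b c e]; ring)] at h1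
    have h2 : (A1:ℚ) * (g ⬝ᵥ σ.v i1 : ℤ) + A2 * (g ⬝ᵥ σ.v i2 : ℤ)
      = B1 * (g ⬝ᵥ σ.v j1 : ℤ) + B2 * (g ⬝ᵥ σ.v j2 : ℤ) := by
      rw [hA1, hA2, hB1, hB2]
      linear_combination (D:ℚ) * h1
    exact_mod_cast h2
  have hsumZ : B1 + B2 < A1 + A2 := by
    rw [hsum4 γ hz] at hsum
    have : (B1:ℚ) + B2 < A1 + A2 := by
      rw [hA1, hA2, hB1, hB2]
      nlinarith
    exact_mod_cast this
  obtain ⟨y1, y2, z1, z2, e1, e2, e3, e4, e5, e6⟩ := core' A1 A2 B1 B2 P1 P2 Q1 Q2 hsumZ
    (by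
      intro c c1 c2 c3
      obtain ⟨g, hg⟩ := σ.primitive j2
      have h1 := hrelZ g
      rw [hg, mul_one] at h1
      have h2 : B2 = A1 * (g ⬝ᵥ σ.v i1) + A2 * (g ⬝ᵥ σ.v i2) - B1 * (g ⬝ᵥ σ.v j1) := by linarith
      rw [h2]
      exact dvd_sub (dvd_add (Dvd.dvd.mul_right c1 _) (Dvd.dvd.mul_right c2 _)) (Dvd.dvd.mul_right c3 _))
    (by
      intro c c1 c2 c3
      obtain ⟨g, hg⟩ := σ.primitive j1
      have h1 := hrelZ g
      rw [hg, mul_one] at h1
      have h2 : B1 = A1 * (g ⬝ᵥ σ.v i1) + A2 * (g ⬝ᵥ σ.v i2) - B2 * (g ⬝ᵥ σ.v j2) := by linarith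
      rw [h2]
      exact dvd_sub (dvd_add (Dvd.dvd.mul_right c1 _) (Dvd.dvd.mul_right c2 _)) (Dvd.dvd.mul_right c3 _))
  set y : σ.ι → ℚ := fun i => if i = i1 then y1 else if i = i2 then y2 else if i = j1 then z1
    else if i = j2 then z2 else 0 with hy
  have v1 : y i1 = y1 := by simp [hy]
  have v2 : y i2 = y2 := by simp [hy, hd12.symm]
  have v3 : y j1 = z1 := by simp [hy, h13.symm, h23.symm]
  have v4 : y j2 = z2 := by simp [hy, h14.symm, h24.symm, hd34.symm]
  have v0 : ∀ i, i ≠ i1 → i ≠ i2 → i ≠ j1 → i ≠ j2 → y i = 0 := by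
    intro i a b c e; simp [hy, a, b, c, e]
  refine ⟨y, ?_, v0, ?_, ?_⟩
  · intro i
    simp only [hy]
    split_ifs <;> first | assumption | exact le_refl _
  · rw [hsum4 y v0, v1, v2, v3, v4]; exact e5
  · intro g hg hne
    rw [hsum4 _ (by intro i a b c e; rw [v0 i a b c e]; ring), v1, v2, v3, v4]
    exact e6 _ _ _ _ (hg i1) (hg i2) (hg j1) (hg j2) (hrelZ g) hne

open scoped Classical in
/-- weights on a circuit, all cases -/
lemma circuit_weights (γ : σ.ι → ℚ) (C : Finset σ.ι) (hC : ∀ i, i ∈ C ↔ γ i ≠ 0)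
    (hrel : ∀ g : Fin d → ℤ, ∑ i, γ i * (g ⬝ᵥ σ.v i : ℤ) = 0) (hsum : ∑ i, γ i ≠ 0) :
    ∃ y : σ.ι → ℚ, (∀ i, 0 ≤ y i) ∧ (∀ i, i ∉ C → y i = 0) ∧
      ∑ i, y i + 5 / 2 ≤ C.card ∧ ∀ g : Fin d → ℤ, (∀ i, 0 ≤ g ⬝ᵥ σ.v i) →
        (∃ i ∈ C, g ⬝ᵥ σ.v i ≠ 0) → 1 ≤ ∑ i, y i * (g ⬝ᵥ σ.v i : ℤ) := by
  set P := Finset.univ.filter (fun i => 0 < γ i) with hP
  set N := Finset.univ.filter (fun i => γ i < 0) with hN
  have hCPN : C = P ∪ N := by
    ext i
    rw [hC i, hP, hN]
    simp only [Finset.mem_union, Finset.mem_filter, Finset.mem_univ, true_and]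
    constructor
    · intro h; rcases lt_or_gt_of_ne h with h | h
      · exact Or.inr h
      · exact Or.inl h
    · rintro (h | h)
      · exact ne_of_gt h
      · exact ne_of_lt h
  have hdisj : Disjoint P N := by
    rw [Finset.disjoint_left]
    intro i h1 h2
    simp only [hP, hN, Finset.mem_filter, Finset.mem_univ, true_and] at h1 h2
    linarith
  have hcardC : C.card = P.card + N.card := by rw [hCPN, Finset.card_union_of_disjoint hdisj]
  -- splitting of sums
  have hsplit : ∀ f : σ.ι → ℚ, (∀ i, γ i = 0 → f i = 0) → ∑ i, f i = ∑ i ∈ P, f i + ∑ i ∈ N, f i := by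
    intro f hf
    rw [← Finset.sum_union hdisj, ← hCPN]
    symm
    apply Finset.sum_subset (Finset.subset_univ _)
    intro i _ hi
    apply hf
    by_contra hcon
    exact hi ((hC i).2 hcon)
  have hne : P.Nonempty ∨ N.Nonempty := by
    by_contra hcon
    push Not at hcon
    apply hsum
    rw [hsplit γ (fun i h => h), hcon.1, hcon.2]
    simp
  obtain ⟨g0, hg0⟩ := σ.pointed
  have hrelPN : ∀ g : Fin d → ℤ, ∑ i ∈ P, γ i * (g ⬝ᵥ σ.v i : ℤ) = ∑ i ∈ N, (-γ i) * (g ⬝ᵥ σ.v i : ℤ) := by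
    intro g
    have h1 := hrel g
    rw [hsplit _ (by intro i h; rw [h]; ring)] at h1
    have h2 : ∑ i ∈ N, (-γ i) * (g ⬝ᵥ σ.v i : ℤ) = - ∑ i ∈ N, γ i * (g ⬝ᵥ σ.v i : ℤ) := by
      rw [← Finset.sum_neg_distrib]; exact Finset.sum_congr rfl fun i _ => by ring
    rw [h2]; linarith
  have hPpos : ∀ g : Fin d → ℤ, (∀ i ∈ P, 0 < g ⬝ᵥ σ.v i) → P.Nonempty →
      0 < ∑ i ∈ P, γ i * (g ⬝ᵥ σ.v i : ℤ) := by
    intro g hg hPn
    apply Finset.sum_pos _ hPn
    intro i hi
    have h1 : 0 < γ i := by simpa [hP] using hi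
    have h2 : (0:ℚ) < (g ⬝ᵥ σ.v i : ℤ) := by exact_mod_cast hg i hi
    positivity
  have hNpos : ∀ g : Fin d → ℤ, (∀ i ∈ N, 0 < g ⬝ᵥ σ.v i) → N.Nonempty →
      0 < ∑ i ∈ N, (-γ i) * (g ⬝ᵥ σ.v i : ℤ) := by
    intro g hg hNn
    apply Finset.sum_pos _ hNn
    intro i hi
    have h1 : γ i < 0 := by simpa [hN] using hi
    have h2 : (0:ℚ) < (g ⬝ᵥ σ.v i : ℤ) := by exact_mod_cast hg i hi
    have h3 : 0 < -γ i := by linarith
    positivity
  have hPne : P.Nonempty := by
    by_contra hcon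
    have hP0 : P = ∅ := Finset.not_nonempty_iff_eq_empty.1 hcon
    have hNn : N.Nonempty := by tauto
    have h1 := hNpos g0 (fun i _ => hg0 i) hNn
    rw [← hrelPN g0, hP0] at h1
    simp at h1
  have hNne : N.Nonempty := by
    by_contra hcon
    have hN0 : N = ∅ := Finset.not_nonempty_iff_eq_empty.1 hcon
    have h1 := hPpos g0 (fun i _ => hg0 i) hPne
    rw [hrelPN g0, hN0] at h1
    simp at h1
  have hP2 : 2 ≤ P.card := by
    by_contra hcon
    have h1 : P.card = 1 := by have := Finset.card_pos.2 hPne; omega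
    obtain ⟨i, hi⟩ := Finset.card_eq_one.1 h1
    obtain ⟨g, hg1, hg2⟩ := σ.extremal i
    have hiN : i ∉ N := Finset.disjoint_left.1 hdisj (by rw [hi]; simp)
    have h2 := hNpos g (fun j hj => hg2 j (fun h => hiN (h ▸ hj))) hNne
    rw [← hrelPN g, hi] at h2
    simp [hg1] at h2
  have hN2 : 2 ≤ N.card := by
    by_contra hcon
    have h1 : N.card = 1 := by have := Finset.card_pos.2 hNne; omega
    obtain ⟨i, hi⟩ := Finset.card_eq_one.1 h1
    obtain ⟨g, hg1, hg2⟩ := σ.extremal i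
    have hiP : i ∉ P := Finset.disjoint_right.1 hdisj (by rw [hi]; simp)
    have h2 := hPpos g (fun j hj => hg2 j (fun h => hiP (h ▸ hj))) hPne
    rw [hrelPN g, hi] at h2
    simp [hg1] at h2
  -- vanishing on P implies vanishing on N and conversely
  have hvPN : ∀ g : Fin d → ℤ, (∀ i, 0 ≤ g ⬝ᵥ σ.v i) → (∀ i ∈ P, g ⬝ᵥ σ.v i = 0) →
      ∀ i ∈ N, g ⬝ᵥ σ.v i = 0 := by
    intro g hg h0 i hi
    have h1 : ∑ i ∈ N, (-γ i) * (g ⬝ᵥ σ.v i : ℤ) = 0 := by
      rw [← hrelPN g]
      exact Finset.sum_eq_zero fun i hi => by rw [h0 i hi]; simp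
    rw [Finset.sum_eq_zero_iff_of_nonneg] at h1
    · have h2 := h1 i hi
      have h3 : γ i < 0 := by simpa [hN] using hi
      rcases mul_eq_zero.1 h2 with h4 | h4
      · linarith
      · exact_mod_cast h4
    · intro j hj
      have h3 : γ j < 0 := by simpa [hN] using hj
      have h4 : (0:ℚ) ≤ (g ⬝ᵥ σ.v j : ℤ) := by exact_mod_cast hg j
      exact mul_nonneg (by linarith) h4
  have hvNP : ∀ g : Fin d → ℤ, (∀ i, 0 ≤ g ⬝ᵥ σ.v i) → (∀ i ∈ N, g ⬝ᵥ σ.v i = 0) →
      ∀ i ∈ P, g ⬝ᵥ σ.v i = 0 := by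
    intro g hg h0 i hi
    have h1 : ∑ i ∈ P, (γ i) * (g ⬝ᵥ σ.v i : ℤ) = 0 := by
      rw [hrelPN g]
      exact Finset.sum_eq_zero fun i hi => by rw [h0 i hi]; simp
    rw [Finset.sum_eq_zero_iff_of_nonneg] at h1
    · have h2 := h1 i hi
      have h3 : 0 < γ i := by simpa [hP] using hi
      rcases mul_eq_zero.1 h2 with h4 | h4
      · linarith
      · exact_mod_cast h4
    · intro j hj
      have h3 : 0 < γ j := by simpa [hP] using hj
      have h4 : (0:ℚ) ≤ (g ⬝ᵥ σ.v j : ℤ) := by exact_mod_cast hg j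
      exact mul_nonneg h3.le h4
  -- weights 1 on a side
  have hside : ∀ S : Finset σ.ι, S ⊆ C → (∀ g : Fin d → ℤ, (∀ i, 0 ≤ g ⬝ᵥ σ.v i) →
      (∀ i ∈ S, g ⬝ᵥ σ.v i = 0) → ∀ i ∈ C, g ⬝ᵥ σ.v i = 0) → (S.card : ℚ) + 5 / 2 ≤ C.card →
      ∃ y : σ.ι → ℚ, (∀ i, 0 ≤ y i) ∧ (∀ i, i ∉ C → y i = 0) ∧
      ∑ i, y i + 5 / 2 ≤ C.card ∧ ∀ g : Fin d → ℤ, (∀ i, 0 ≤ g ⬝ᵥ σ.v i) →
        (∃ i ∈ C, g ⬝ᵥ σ.v i ≠ 0) → 1 ≤ ∑ i, y i * (g ⬝ᵥ σ.v i : ℤ) := by
    intro S hSC hS hcard
    refine ⟨fun i => if i ∈ S then 1 else 0, ?_, ?_, ?_, ?_⟩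
    · intro i; dsimp only; split_ifs <;> norm_num
    · intro i hi; dsimp only; rw [if_neg (fun h => hi (hSC h))]
    · simp only [Finset.sum_ite_mem, Finset.univ_inter, Finset.sum_const, nsmul_eq_mul, mul_one]
      exact hcard
    · intro g hg hex
      have h1 : ∃ i ∈ S, g ⬝ᵥ σ.v i ≠ 0 := by
        by_contra hcon
        push Not at hcon
        obtain ⟨i, hi, hne⟩ := hex
        exact hne (hS g hg hcon i hi)
      obtain ⟨i, hi, hne⟩ := h1
      have h2 : (1:ℚ) ≤ (g ⬝ᵥ σ.v i : ℤ) := by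
        have := hg i
        have h3 : 1 ≤ g ⬝ᵥ σ.v i := by omega
        exact_mod_cast h3
      have h4 : (if i ∈ S then (1:ℚ) else 0) * (g ⬝ᵥ σ.v i : ℤ) ≤
          ∑ i, (if i ∈ S then (1:ℚ) else 0) * (g ⬝ᵥ σ.v i : ℤ) := by
        apply Finset.single_le_sum (f := fun i => (if i ∈ S then (1:ℚ) else 0) * (g ⬝ᵥ σ.v i : ℤ)) _ (Finset.mem_univ i)
        intro j _
        have h3 : (0:ℚ) ≤ (g ⬝ᵥ σ.v j : ℤ) := by exact_mod_cast hg j
        split_ifs
        · rw [one_mul]; exact h3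
        · rw [zero_mul]
      rw [if_pos hi, one_mul] at h4
      linarith
  by_cases h5 : 5 ≤ C.card
  · rcases le_total P.card N.card with hle | hle
    · apply hside P (by rw [hCPN]; exact Finset.subset_union_left)
      · intro g hg h0 i hi
        rw [hCPN, Finset.mem_union] at hi
        rcases hi with hi | hi
        · exact h0 i hi
        · exact hvPN g hg h0 i hi
      · have h6 : (2:ℕ) * P.card + 5 ≤ 2 * C.card := by omega
        have h7 : (2:ℚ) * P.card + 5 ≤ 2 * C.card := by exact_mod_cast h6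
        linarith
    · apply hside N (by rw [hCPN]; exact Finset.subset_union_right)
      · intro g hg h0 i hi
        rw [hCPN, Finset.mem_union] at hi
        rcases hi with hi | hi
        · exact hvNP g hg h0 i hi
        · exact h0 i hi
      · have h6 : (2:ℕ) * N.card + 5 ≤ 2 * C.card := by omega
        have h7 : (2:ℚ) * N.card + 5 ≤ 2 * C.card := by exact_mod_cast h6
        linarith
  · have hPc : P.card = 2 := by omega
    have hNc : N.card = 2 := by omega
    obtain ⟨i1, i2, hi12, hPe⟩ := Finset.card_eq_two.1 hPc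
    obtain ⟨j1, j2, hj12, hNe⟩ := Finset.card_eq_two.1 hNc
    have mi1 : 0 < γ i1 := by
      have : i1 ∈ P := by rw [hPe]; simp
      simpa [hP] using this
    have mi2 : 0 < γ i2 := by
      have : i2 ∈ P := by rw [hPe]; simp
      simpa [hP] using this
    have mj1 : γ j1 < 0 := by
      have : j1 ∈ N := by rw [hNe]; simp
      simpa [hN] using this
    have mj2 : γ j2 < 0 := by
      have : j2 ∈ N := by rw [hNe]; simp
      simpa [hN] using this
    have h13 : i1 ≠ j1 := by rintro rfl; linarith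
    have h14 : i1 ≠ j2 := by rintro rfl; linarith
    have h23 : i2 ≠ j1 := by rintro rfl; linarith
    have h24 : i2 ≠ j2 := by rintro rfl; linarith
    have hCe : ∀ i, i ∈ C ↔ (i = i1 ∨ i = i2 ∨ i = j1 ∨ i = j2) := by
      intro i
      rw [hCPN, hPe, hNe]
      simp only [Finset.mem_union, Finset.mem_insert, Finset.mem_singleton]
      tauto
    have hz : ∀ i, i ≠ i1 → i ≠ i2 → i ≠ j1 → i ≠ j2 → γ i = 0 := by
      intro i a b c e
      by_contra hcon
      have := (hCe i).1 ((hC i).2 hcon)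
      tauto
    have hCc : (C.card : ℚ) = 4 := by rw [hcardC, hPc, hNc]; norm_num
    rcases lt_or_gt_of_ne hsum with hs | hs
    · obtain ⟨y, e1, e2, e3, e4⟩ := circuit_four σ (fun i => - γ i) j1 j2 i1 i2 hj12 hi12 h13.symm
        h23.symm h14.symm h24.symm (by linarith) (by linarith) (by linarith) (by linarith)
        (by intro i a b c e; rw [hz i c e a b]; ring)
        (by
          intro g
          rw [← neg_zero, ← hrel g, ← Finset.sum_neg_distrib]
          exact Finset.sum_congr rfl fun i _ => by ring)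
        (by rw [Finset.sum_neg_distrib]; linarith)
      refine ⟨y, e1, ?_, ?_, ?_⟩
      · intro i hi
        rw [hCe i] at hi
        push Not at hi
        exact e2 i hi.2.2.1 hi.2.2.2 hi.1 hi.2.1
      · rw [e3, hCc]; norm_num
      · intro g hg hex
        apply e4 g hg
        obtain ⟨i, hi, hne⟩ := hex
        rcases (hCe i).1 hi with rfl | rfl | rfl | rfl <;> tauto
    · obtain ⟨y, e1, e2, e3, e4⟩ := circuit_four σ γ i1 i2 j1 j2 hi12 hj12 h13
        h14 h23 h24 mi1 mi2 mj1 mj2 hz hrel hs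
      refine ⟨y, e1, ?_, ?_, ?_⟩
      · intro i hi
        rw [hCe i] at hi
        push Not at hi
        exact e2 i hi.1 hi.2.1 hi.2.2.1 hi.2.2.2
      · rw [e3, hCc]; norm_num
      · intro g hg hex
        apply e4 g hg
        obtain ⟨i, hi, hne⟩ := hex
        rcases (hCe i).1 hi with rfl | rfl | rfl | rfl <;> tauto

/-- the weights -/
lemma exists_weights (h : ¬ σ.IsQGorenstein) :
    ∃ y : σ.ι → ℚ, (∀ i, 0 ≤ y i) ∧ ∑ i, y i ≤ d - 3 / 2 ∧
      ∀ g : Fin d → ℤ, (∀ i, 0 ≤ g ⬝ᵥ σ.v i) → g ≠ 0 → 1 ≤ ∑ i, y i * (g ⬝ᵥ σ.v i : ℤ) := by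
  classical
  obtain ⟨C, B, γ, hC, hdisj, hrel, hsum, hcard, hspan⟩ := exists_completion σ h
  obtain ⟨y, y0, y1, y2, y3⟩ := circuit_weights σ γ C hC hrel hsum
  refine ⟨fun i => y i + if i ∈ B then 1 else 0, ?_, ?_, ?_⟩
  · intro i
    have := y0 i
    dsimp only
    split_ifs <;> linarith
  · rw [Finset.sum_add_distrib]
    simp only [Finset.sum_ite_mem, Finset.univ_inter, Finset.sum_const, nsmul_eq_mul, mul_one]
    have h1 : (B.card : ℚ) + C.card = d + 1 := by exact_mod_cast hcard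
    linarith
  · intro g hg hne
    have hsplit : ∑ i, (y i + if i ∈ B then (1:ℚ) else 0) * (g ⬝ᵥ σ.v i : ℤ) =
        ∑ i, y i * (g ⬝ᵥ σ.v i : ℤ) + ∑ i ∈ B, ((g ⬝ᵥ σ.v i : ℤ) : ℚ) := by
      simp only [add_mul, ite_mul, one_mul, zero_mul, Finset.sum_add_distrib, Finset.sum_ite_mem,
        Finset.univ_inter]
    rw [hsplit]
    have hn1 : 0 ≤ ∑ i, y i * ((g ⬝ᵥ σ.v i : ℤ) : ℚ) := Finset.sum_nonneg fun i _ =>
      mul_nonneg (y0 i) (by exact_mod_cast hg i)
    have hn2 : 0 ≤ ∑ i ∈ B, ((g ⬝ᵥ σ.v i : ℤ) : ℚ) := Finset.sum_nonneg fun i _ => by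
      exact_mod_cast hg i
    by_cases hex : ∃ i ∈ C, g ⬝ᵥ σ.v i ≠ 0
    · have := y3 g hg hex
      linarith
    · push Not at hex
      have hexB : ∃ i ∈ B, g ⬝ᵥ σ.v i ≠ 0 := by
        by_contra hcon
        push Not at hcon
        apply hne
        apply hspan g
        intro i hi
        rcases Finset.mem_union.1 hi with hi | hi
        · exact hex i hi
        · exact hcon i hi
      obtain ⟨i, hi, hine⟩ := hexB
      have h1 : (1:ℚ) ≤ ((g ⬝ᵥ σ.v i : ℤ) : ℚ) := by
        have := hg i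
        have h3 : 1 ≤ g ⬝ᵥ σ.v i := by omega
        exact_mod_cast h3
      have h2 : ((g ⬝ᵥ σ.v i : ℤ) : ℚ) ≤ ∑ i ∈ B, ((g ⬝ᵥ σ.v i : ℤ) : ℚ) :=
        Finset.single_le_sum (f := fun i => ((g ⬝ᵥ σ.v i : ℤ) : ℚ)) (fun j _ => by exact_mod_cast hg j) hi
      linarith

/-- a `p^{-e}`-linear map extends to a localisation -/
lemma extend_localization {B R : Type*} [CommRing B] [CommRing R] [Algebra B R] (S : Submonoid B)
    [IsLocalization S R] (q : ℕ) (hq : 0 < q) (ψ : B →+ B) (hψ : ∀ a x, ψ (a ^ q * x) = a * ψ x) :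
    ∃ φ : R →+ R, (∀ a x, φ (a ^ q * x) = a * φ x) ∧ ∀ b, φ (algebraMap B R b) = algebraMap B R (ψ b) := by
  classical
  obtain ⟨r, rfl⟩ : ∃ r, q = r + 1 := ⟨q - 1, by omega⟩
  have key : ∀ (b b' : B) (s s' : S), IsLocalization.mk' R b s = IsLocalization.mk' R b' s' →
      IsLocalization.mk' R (ψ (b * (s:B) ^ r)) s = IsLocalization.mk' R (ψ (b' * (s':B) ^ r)) s' := by
    intro b b' s s' h
    rw [IsLocalization.eq (M := S)] at h
    obtain ⟨c, hc⟩ := h
    rw [IsLocalization.eq (M := S)]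
    refine ⟨c, ?_⟩
    have h1 : (c:B) * ((s':B) * ψ (b * (s:B) ^ r)) = ψ ((c * s' : B) ^ (r+1) * (b * (s:B) ^ r)) := by
      rw [hψ]; ring
    have h2 : (c:B) * ((s:B) * ψ (b' * (s':B) ^ r)) = ψ ((c * s : B) ^ (r+1) * (b' * (s':B) ^ r)) := by
      rw [hψ]; ring
    rw [h1, h2]
    congr 1
    have h3 : (c * s' : B) ^ (r+1) * (b * (s:B) ^ r) = (c * s' * s : B) ^ r * (c * (s' * b)) := by ring
    have h4 : (c * s : B) ^ (r+1) * (b' * (s':B) ^ r) = (c * s' * s : B) ^ r * (c * (s * b')) := by ring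
    rw [h3, h4, hc]
  let f : R → R := fun x => IsLocalization.mk' R (ψ ((IsLocalization.sec S x).1 * ((IsLocalization.sec S x).2 : B) ^ r))
    (IsLocalization.sec S x).2
  have hf : ∀ (b : B) (s : S), f (IsLocalization.mk' R b s) = IsLocalization.mk' R (ψ (b * (s:B) ^ r)) s := by
    intro b s
    apply key
    exact IsLocalization.mk'_sec R _
  have hadd : ∀ x y, f (x + y) = f x + f y := by
    intro x y
    obtain ⟨b, s, rfl⟩ := IsLocalization.exists_mk'_eq S x
    obtain ⟨b', s', rfl⟩ := IsLocalization.exists_mk'_eq S y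
    rw [← IsLocalization.mk'_add, hf, hf, hf, ← IsLocalization.mk'_add]
    congr 1
    rw [add_mul, map_add]
    have h1 : ψ (b * (s':B) * ((s * s' : S) : B) ^ r) = ψ (b * (s:B) ^ r) * s' := by
      rw [mul_comm (ψ _) (s':B), ← hψ]; congr 1; push_cast; ring
    have h2 : ψ (b' * (s:B) * ((s * s' : S) : B) ^ r) = ψ (b' * (s':B) ^ r) * s := by
      rw [mul_comm (ψ _) (s:B), ← hψ]; congr 1; push_cast; ring
    rw [h1, h2]
  refine ⟨AddMonoidHom.mk' f hadd, ?_, ?_⟩
  · intro a x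
    change f (a ^ (r+1) * x) = a * f x
    obtain ⟨b, s, rfl⟩ := IsLocalization.exists_mk'_eq S x
    obtain ⟨a, t, rfl⟩ := IsLocalization.exists_mk'_eq S a
    rw [← IsLocalization.mk'_pow, ← IsLocalization.mk'_mul, hf, hf, ← IsLocalization.mk'_mul]
    have h1 : ψ (a ^ (r+1) * b * ((t ^ (r+1) * s : S) : B) ^ r) = (a * (t:B) ^ r) * ψ (b * (s:B) ^ r) := by
      rw [← hψ]; congr 1; push_cast; ring
    rw [h1, IsLocalization.eq (M := S)]
    refine ⟨1, ?_⟩
    push_cast
    ring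
  · intro b
    change f (algebraMap B R b) = _
    have h1 : algebraMap B R b = IsLocalization.mk' R b (1 : S) := (IsLocalization.mk'_one R b).symm
    rw [h1, hf]
    simp [IsLocalization.mk'_one]

/-- a `p^{-e}`-linear retraction of the Frobenius of a field -/
lemma exists_kappa (k : Type*) [Field k] (p : ℕ) [Fact p.Prime] [CharP k p] (e : ℕ) :
    ∃ κ : k →+ k, (∀ a x, κ (a ^ (p ^ e) * x) = a * κ x) ∧ κ 1 = 1 := by
  have : ExpChar k p := ExpChar.prime (Fact.out)
  set F := iterateFrobenius k p e with hF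
  set L := F.fieldRange with hL
  have hinj : Function.Injective (Algebra.linearMap L k) := by
    intro x y h
    exact Subtype.ext h
  obtain ⟨g, hg⟩ := LinearMap.exists_leftInverse_of_injective (Algebra.linearMap L k)
    (LinearMap.ker_eq_bot.2 hinj)
  have hFinj : Function.Injective F := F.injective
  let E : k ≃+* L := RingEquiv.ofBijective F.rangeRestrictField
    ⟨fun x y h => hFinj (congrArg Subtype.val h), by
      rintro ⟨_, ⟨x, rfl⟩⟩
      exact ⟨x, rfl⟩⟩
  have hE : ∀ x, ((E x : L) : k) = x ^ (p ^ e) := by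
    intro x
    change F x = _
    rw [hF, iterateFrobenius_def]
  refine ⟨(E.symm.toAddMonoidHom).comp g.toAddMonoidHom, ?_, ?_⟩
  · intro a x
    change E.symm (g (a ^ (p ^ e) * x)) = a * E.symm (g x)
    have h1 : a ^ (p ^ e) * x = (E a) • x := by
      rw [Subfield.smul_def, smul_eq_mul, hE]
    rw [h1, map_smul, smul_eq_mul, map_mul, E.symm_apply_apply]
  · change E.symm (g 1) = 1
    have h1 : g 1 = 1 := by
      have := LinearMap.congr_fun hg (1 : L)
      simpa using this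
    rw [h1, map_one]


section ring

variable {d : ℕ} (σ : Cone d) (k : Type) [Field k]

open AddMonoidAlgebra

lemma mem_originIdeal_iff (b : AddMonoidAlgebra k σ.dual) :
    b ∈ σ.originIdeal k ↔ b.coeff 0 = 0 := σ.mem_originIdeal k b

/-- the weight of a monomial -/
def wt (y : σ.ι → ℚ) (g : Fin d → ℤ) : ℚ := ∑ i, y i * (g ⬝ᵥ σ.v i : ℤ)

lemma wt_add (y : σ.ι → ℚ) (g h : Fin d → ℤ) : wt σ y (g + h) = wt σ y g + wt σ y h := by
  simp only [wt, add_dotProduct, Int.cast_add, mul_add, Finset.sum_add_distrib]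

/-- ideal of elements all of whose monomials have weight at least `n` -/
def wtIdeal (y : σ.ι → ℚ) (hy : ∀ i, 0 ≤ y i) (n : ℕ) : Ideal (AddMonoidAlgebra k σ.dual) where
  carrier := {b | ∀ g : σ.dual, b.coeff g ≠ 0 → (n : ℚ) ≤ wt σ y g}
  zero_mem' := by intro g hg; simp at hg
  add_mem' := by
    intro a b ha hb g hg
    by_cases h : a.coeff g = 0
    · apply hb g
      intro h2
      apply hg
      simp [h, h2]
    · exact ha g h
  smul_mem' := by
    classical
    intro c b hb g hg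
    rw [smul_eq_mul, coeff_mul] at hg
    obtain ⟨g1, hg1, h1⟩ := Finset.exists_ne_zero_of_sum_ne_zero hg
    obtain ⟨g2, hg2, h2⟩ := Finset.exists_ne_zero_of_sum_ne_zero h1
    have h3 : g1 + g2 = g := by
      by_contra hc
      exact h2 (by simp [hc])
    rw [← h3]
    have h4 := hb g2 (Finsupp.mem_support_iff.1 hg2)
    have h5 : 0 ≤ wt σ y g1 := Finset.sum_nonneg fun i _ =>
      mul_nonneg (hy i) (by exact_mod_cast g1.2 i)
    have h6 : wt σ y ((g1 + g2 : σ.dual) : Fin d → ℤ) = wt σ y g1 + wt σ y g2 := by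
      rw [← wt_add]; rfl
    rw [h6]; linarith

lemma mem_wtIdeal (y : σ.ι → ℚ) (hy : ∀ i, 0 ≤ y i) (n : ℕ) (b : AddMonoidAlgebra k σ.dual) :
    b ∈ wtIdeal σ k y hy n ↔ ∀ g : σ.dual, b.coeff g ≠ 0 → (n : ℚ) ≤ wt σ y g := Iff.rfl

lemma ker_pow_le (y : σ.ι → ℚ) (hy : ∀ i, 0 ≤ y i)
    (h1 : ∀ g : Fin d → ℤ, (∀ i, 0 ≤ g ⬝ᵥ σ.v i) → g ≠ 0 → 1 ≤ ∑ i, y i * (g ⬝ᵥ σ.v i : ℤ)) (n : ℕ) :
    (σ.originIdeal k) ^ n ≤ wtIdeal σ k y hy n := by
  classical
  induction n with
  | zero =>
    intro b _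
    rw [mem_wtIdeal]
    intro g _
    have h5 : 0 ≤ wt σ y g := Finset.sum_nonneg fun i _ =>
      mul_nonneg (hy i) (by exact_mod_cast g.2 i)
    simpa using h5
  | succ n ih =>
    rw [pow_succ, Ideal.mul_le]
    intro a ha b hb
    rw [mem_wtIdeal]
    intro g hg
    rw [coeff_mul] at hg
    obtain ⟨g1, hg1, e1⟩ := Finset.exists_ne_zero_of_sum_ne_zero hg
    obtain ⟨g2, hg2, e2⟩ := Finset.exists_ne_zero_of_sum_ne_zero e1
    have h3 : g1 + g2 = g := by
      by_contra hc
      exact e2 (by simp [hc])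
    have h4 := ih ha g1 (Finsupp.mem_support_iff.1 hg1)
    have h5 : (1:ℚ) ≤ wt σ y g2 := by
      apply h1 _ g2.2
      intro hc
      have hc' : g2 = 0 := Subtype.ext hc
      rw [mem_originIdeal_iff] at hb
      rw [hc'] at hg2
      exact (Finsupp.mem_support_iff.1 hg2) hb
    have h6 : wt σ y ((g1 + g2 : σ.dual) : Fin d → ℤ) = wt σ y g1 + wt σ y g2 := by
      rw [← wt_add]; rfl
    rw [← h3, h6]; push_cast; linarith

/-- Key: a monomial on which a `q^{-1}`-linear map takes a unit value has all orders `< q`. -/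
lemma order_lt (q : ℕ) (φ : σ.ring k →+ σ.ring k) (hφ : ∀ a x, φ (a ^ q * x) = a * φ x)
    (h : σ.dual) (c : k) (hu : IsUnit (φ (algebraMap _ _ (single h c)))) (i : σ.ι) :
    (h : Fin d → ℤ) ⬝ᵥ σ.v i < q := by
  classical
  by_contra hcon
  push Not at hcon
  obtain ⟨g1, hg1⟩ := σ.primitive i
  obtain ⟨w0, hw0, hw1⟩ := σ.extremal i
  have hw0' : ∀ j, 0 ≤ w0 ⬝ᵥ σ.v j := by
    intro j
    by_cases hj : j = i
    · rw [hj, hw0]
    · exact (hw1 j hj).le
  have hbound : ∀ (f : σ.ι → ℤ) (j : σ.ι), f j ≤ ∑ l, |f l| := by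
    intro f j
    exact le_trans (le_abs_self _) (Finset.single_le_sum (f := fun l => |f l|) (fun _ _ => abs_nonneg _) (Finset.mem_univ j))
  -- a
  set N' : ℤ := ∑ j, |(-(g1 ⬝ᵥ σ.v j))| with hN'
  have hN'0 : 0 ≤ N' := Finset.sum_nonneg fun _ _ => abs_nonneg _
  have ha : ∀ j, 0 ≤ (g1 + N' • w0) ⬝ᵥ σ.v j := by
    intro j
    rw [add_dotProduct, smul_dotProduct, smul_eq_mul]
    by_cases hj : j = i
    · rw [hj, hw0, hg1]; norm_num
    · have e1 := hbound (fun l => -(g1 ⬝ᵥ σ.v l)) j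
      have e2 := hw1 j hj
      rw [← hN'] at e1
      nlinarith
  set N : ℤ := ∑ j, |((g1 + N' • w0) ⬝ᵥ σ.v j)| with hN
  have hN0 : 0 ≤ N := Finset.sum_nonneg fun _ _ => abs_nonneg _
  have hh : ∀ j, 0 ≤ ((h : Fin d → ℤ) + (q * N : ℤ) • w0 - (q : ℤ) • (g1 + N' • w0)) ⬝ᵥ σ.v j := by
    intro j
    rw [sub_dotProduct, add_dotProduct, smul_dotProduct, smul_dotProduct, smul_eq_mul, smul_eq_mul]
    by_cases hj : j = i
    · have e3 : (g1 + N' • w0) ⬝ᵥ σ.v i = 1 := by
        rw [add_dotProduct, smul_dotProduct, smul_eq_mul, hw0, hg1]; ring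
      rw [hj, e3, hw0]; linarith
    · have e1 := hbound (fun l => ((g1 + N' • w0) ⬝ᵥ σ.v l)) j
      have e2 := hw1 j hj
      have e3 := h.2 j
      rw [← hN] at e1
      have e4 : (0:ℤ) ≤ q := by positivity
      have e5 : (g1 + N' • w0) ⬝ᵥ σ.v j ≤ N * (w0 ⬝ᵥ σ.v j) := by nlinarith
      have e6 : (q:ℤ) * ((g1 + N' • w0) ⬝ᵥ σ.v j) ≤ q * (N * (w0 ⬝ᵥ σ.v j)) :=
        mul_le_mul_of_nonneg_left e5 e4
      linarith
  let A : σ.dual := ⟨g1 + N' • w0, ha⟩
  let E : σ.dual := ⟨N • w0, by intro j; rw [smul_dotProduct, smul_eq_mul]; exact mul_nonneg hN0 (hw0' j)⟩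
  let H : σ.dual := ⟨(h : Fin d → ℤ) + (q * N : ℤ) • w0 - (q : ℤ) • (g1 + N' • w0), hh⟩
  have hAH : q • E + h = q • A + H := by
    apply Subtype.ext
    change q • (N • w0) + (h : Fin d → ℤ) = q • (g1 + N' • w0) + ((h : Fin d → ℤ) + (q * N : ℤ) • w0 - (q : ℤ) • (g1 + N' • w0))
    funext l
    simp only [Pi.add_apply, Pi.smul_apply, Pi.sub_apply, smul_eq_mul, nsmul_eq_mul, Pi.mul_apply,
      Pi.natCast_apply]
    ring
  have hmul : (single E (1:k)) ^ q * single h c = (single A (1:k)) ^ q * single H c := by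
    rw [single_pow, single_pow, single_mul_single, single_mul_single, hAH, one_pow]
  have hφ1 : algebraMap _ (σ.ring k) (single E (1:k)) * φ (algebraMap _ _ (single h c)) =
      algebraMap _ (σ.ring k) (single A (1:k)) * φ (algebraMap _ _ (single H c)) := by
    rw [← hφ, ← hφ, ← map_pow, ← map_mul, hmul, map_mul, map_pow]
  obtain ⟨u, hu'⟩ := hu
  rw [← hu'] at hφ1
  obtain ⟨b, s, hbs⟩ := IsLocalization.exists_mk'_eq (σ.originIdeal k).primeCompl
    (φ (algebraMap _ _ (single H c)) * ((u⁻¹ : (σ.ring k)ˣ) : σ.ring k))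
  have h2 : algebraMap _ (σ.ring k) (single E (1:k)) =
      algebraMap _ (σ.ring k) (single A (1:k)) * IsLocalization.mk' _ b s := by
    rw [hbs, ← mul_assoc, ← hφ1, mul_assoc, Units.mul_inv, mul_one]
  have h3 : algebraMap _ (σ.ring k) (single E (1:k) * (s : AddMonoidAlgebra k σ.dual)) =
      algebraMap _ (σ.ring k) (single A (1:k) * b) := by
    rw [map_mul, h2, map_mul, mul_assoc, IsLocalization.mk'_spec]
  rw [IsLocalization.eq_iff_exists (σ.originIdeal k).primeCompl] at h3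
  obtain ⟨c', hc'⟩ := h3
  have h4 : single E (1:k) * ((c' : AddMonoidAlgebra k σ.dual) * s) = single A (1:k) * (c' * b) := by
    linear_combination hc'
  have hS : ((c' : AddMonoidAlgebra k σ.dual) * s).coeff 0 ≠ 0 := by
    rw [← Cone.augmentation_eq_coeff, map_mul]
    have e1 : σ.augmentation k (c' : AddMonoidAlgebra k σ.dual) ≠ 0 := fun hc => c'.2 (by
      change _ ∈ σ.originIdeal k
      rw [mem_originIdeal_iff, ← Cone.augmentation_eq_coeff]; exact hc)
    have e2 : σ.augmentation k (s : AddMonoidAlgebra k σ.dual) ≠ 0 := fun hc => s.2 (by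
      change _ ∈ σ.originIdeal k
      rw [mem_originIdeal_iff, ← Cone.augmentation_eq_coeff]; exact hc)
    exact mul_ne_zero e1 e2
  have h5 : (single E (1:k) * ((c' : AddMonoidAlgebra k σ.dual) * s)).coeff E = ((c' : AddMonoidAlgebra k σ.dual) * s).coeff 0 := by
    rw [coeff_single_mul_eq_mul_coeff (m₂ := 0), one_mul]
    intro m' _
    constructor
    · intro h6; exact add_left_cancel (a := E) (by rw [h6, add_zero])
    · rintro rfl; rw [add_zero]
  have h6 : (single A (1:k) * ((c' : AddMonoidAlgebra k σ.dual) * b)).coeff E = 0 := by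
    apply coeff_single_mul_of_forall_add_ne
    intro m hm
    have h7 : (E : Fin d → ℤ) ⬝ᵥ σ.v i = (A : Fin d → ℤ) ⬝ᵥ σ.v i + (m : Fin d → ℤ) ⬝ᵥ σ.v i := by
      rw [← add_dotProduct, ← hm]; rfl
    have h8 : (E : Fin d → ℤ) ⬝ᵥ σ.v i = 0 := by
      change (N • w0) ⬝ᵥ σ.v i = 0
      rw [smul_dotProduct, hw0, smul_zero]
    have h9 : (A : Fin d → ℤ) ⬝ᵥ σ.v i = 1 := by
      change (g1 + N' • w0) ⬝ᵥ σ.v i = 1
      rw [add_dotProduct, smul_dotProduct, smul_eq_mul, hw0, hg1]; ring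
    have h10 := m.2 i
    rw [h8, h9] at h7
    linarith
  rw [h4, h6] at h5
  exact hS h5.symm

/-- upper bound at finite level -/
lemma split_bound (y : σ.ι → ℚ) (hy : ∀ i, 0 ≤ y i)
    (h1 : ∀ g : Fin d → ℤ, (∀ i, 0 ≤ g ⬝ᵥ σ.v i) → g ≠ 0 → 1 ≤ ∑ i, y i * (g ⬝ᵥ σ.v i : ℤ))
    (q : ℕ) (hq : 0 < q) (n : ℕ) (f : σ.ring k) (hf : f ∈ (IsLocalRing.maximalIdeal (σ.ring k)) ^ n)
    (hs : FrobSplits (σ.ring k) q f) : (n : ℚ) ≤ (q - 1) * ∑ i, y i := by
  classical
  obtain ⟨φ, hφ, hφf⟩ := hs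
  rw [← IsLocalization.AtPrime.map_eq_maximalIdeal (σ.originIdeal k) (σ.ring k), ← Ideal.map_pow,
    IsLocalization.mem_map_algebraMap_iff (σ.originIdeal k).primeCompl] at hf
  obtain ⟨⟨b, s⟩, hbs⟩ := hf
  simp only at hbs
  -- b' = s^(q-1) b
  obtain ⟨r, rfl⟩ : ∃ r, q = r + 1 := ⟨q - 1, by omega⟩
  set b' : AddMonoidAlgebra k σ.dual := (s : AddMonoidAlgebra k σ.dual) ^ r * b with hb'
  have hb'mem : b' ∈ (σ.originIdeal k) ^ n := Ideal.mul_mem_left _ _ b.2
  have hval : φ (algebraMap _ _ b') = algebraMap _ (σ.ring k) (s : AddMonoidAlgebra k σ.dual) := by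
    have e1 : algebraMap _ (σ.ring k) b' = (algebraMap _ (σ.ring k) (s : AddMonoidAlgebra k σ.dual)) ^ (r+1) * f := by
      rw [hb', map_mul, map_pow, ← hbs]; ring
    rw [e1, hφ, hφf, mul_one]
  have hunit : IsUnit (algebraMap _ (σ.ring k) (s : AddMonoidAlgebra k σ.dual)) :=
    IsLocalization.map_units _ s
  have hex : ∃ g : σ.dual, b'.coeff g ≠ 0 ∧ IsUnit (φ (algebraMap _ _ (single g (b'.coeff g)))) := by
    by_contra hcon
    push Not at hcon
    have hsum : φ (algebraMap _ _ b') = ∑ g ∈ b'.coeff.support, φ (algebraMap _ _ (single g (b'.coeff g))) := by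
      conv_lhs => rw [← sum_coeff_single b']
      rw [Finsupp.sum, map_sum, map_sum]
    have hmem : φ (algebraMap _ _ b') ∈ IsLocalRing.maximalIdeal (σ.ring k) := by
      rw [hsum]
      apply Ideal.sum_mem
      intro g hg
      exact hcon g (Finsupp.mem_support_iff.1 hg)
    rw [hval] at hmem
    exact hmem hunit
  obtain ⟨g, hg, hgu⟩ := hex
  have h2 := ker_pow_le σ k y hy h1 n hb'mem g hg
  have h3 : ∀ i, ((g : Fin d → ℤ) ⬝ᵥ σ.v i : ℤ) ≤ (r : ℤ) := by
    intro i
    have := order_lt σ k (r+1) φ hφ g (b'.coeff g) hgu i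
    push_cast at this
    linarith
  calc (n : ℚ) ≤ wt σ y g := h2
    _ ≤ ∑ i, y i * (r : ℚ) := by
        apply Finset.sum_le_sum
        intro i _
        apply mul_le_mul_of_nonneg_left _ (hy i)
        exact_mod_cast h3 i
    _ = ((r + 1 : ℕ) - 1) * ∑ i, y i := by
        rw [← Finset.sum_mul]; push_cast; ring

end ring

section lower

variable {d : ℕ} (σ : Cone d) (k : Type) [Field k]

open AddMonoidAlgebra

/-- the `q^{-1}`-linear map `x^{g + q h} ↦ x^h` (and other monomials to `0`) -/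
lemma exists_monomial_split (p : ℕ) [Fact p.Prime] [CharP k p] (e : ℕ) (g : σ.dual)
    (hg : ∀ i, (g : Fin d → ℤ) ⬝ᵥ σ.v i < (p ^ e : ℕ)) :
    ∃ ψ : AddMonoidAlgebra k σ.dual →+ AddMonoidAlgebra k σ.dual,
      (∀ a x, ψ (a ^ (p ^ e) * x) = a * ψ x) ∧ ψ (single g 1) = 1 := by
  classical
  obtain ⟨κ, hκ, hκ1⟩ := exists_kappa k p e
  have hp : 0 < p ^ e := pow_pos (Nat.Prime.pos Fact.out) e
  set q := p ^ e with hq
  have hinj : Function.Injective (fun h : σ.dual => g + q • h) := by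
    intro a b hab
    have h1 : q • a = q • b := add_left_cancel hab
    apply Subtype.ext
    funext l
    have h2 : (q • (a : Fin d → ℤ)) l = (q • (b : Fin d → ℤ)) l := by
      have := congrArg (fun z : σ.dual => (z : Fin d → ℤ) l) h1
      exact this
    simp only [Pi.smul_apply, nsmul_eq_mul] at h2
    have h3 : (q : ℤ) ≠ 0 := by exact_mod_cast hp.ne'
    exact mul_left_cancel₀ h3 h2
  -- define ψ
  let T : σ.dual → k →+ AddMonoidAlgebra k σ.dual := fun h =>
    if hx : ∃ h' : σ.dual, g + q • h' = h then (singleAddHom hx.choose).comp κ else 0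
  have hT1 : ∀ (h' : σ.dual) (c : k), T (g + q • h') c = single h' (κ c) := by
    intro h' c
    have hx : ∃ h'' : σ.dual, g + q • h'' = g + q • h' := ⟨h', rfl⟩
    have h2 : hx.choose = h' := hinj hx.choose_spec
    simp only [T]
    rw [dif_pos hx]
    change single hx.choose (κ c) = _
    rw [h2]
  have hT0 : ∀ (h : σ.dual) (c : k), (¬ ∃ h' : σ.dual, g + q • h' = h) → T h c = 0 := by
    intro h c hx
    simp only [T]
    rw [dif_neg hx]; rfl
  let ψ : AddMonoidAlgebra k σ.dual →+ AddMonoidAlgebra k σ.dual :=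
    (Finsupp.liftAddHom T).comp (coeffAddEquiv (R := k) (M := σ.dual)).toAddMonoidHom
  have hψs : ∀ (h : σ.dual) (c : k), ψ (single h c) = T h c := by
    intro h c
    change Finsupp.liftAddHom T (single h c).coeff = _
    rw [coeff_single, Finsupp.liftAddHom_apply_single]
  refine ⟨ψ, ?_, ?_⟩
  · -- additive in a and x
    have hchar : ExpChar (AddMonoidAlgebra k σ.dual) p := by
      have : CharP (AddMonoidAlgebra k σ.dual) p :=
        charP_of_injective_algebraMap (algebraMap k (AddMonoidAlgebra k σ.dual)).injective p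
      exact ExpChar.prime Fact.out
    intro a x
    have step1 : ∀ (m : σ.dual) (c : k) (x : AddMonoidAlgebra k σ.dual),
        ψ ((single m c) ^ q * x) = single m c * ψ x := by
      intro m c x
      have h1 : ψ.comp (AddMonoidHom.mulLeft ((single m c) ^ q)) =
          (AddMonoidHom.mulLeft (single m c)).comp ψ := by
        apply addMonoidHom_ext
        intro h c'
        change ψ ((single m c) ^ q * single h c') = single m c * ψ (single h c')
        rw [single_pow, single_mul_single, hψs, hψs]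
        by_cases hx : ∃ h' : σ.dual, g + q • h' = h
        · obtain ⟨h', rfl⟩ := hx
          have e1 : q • m + (g + q • h') = g + q • (m + h') := by
            rw [smul_add]; abel
          rw [e1, hT1, hT1, single_mul_single, hκ]
        · rw [hT0 h c' hx, mul_zero]
          apply hT0
          rintro ⟨h'', hh''⟩
          apply hx
          -- h = g + q (h'' - m)
          have e2 : ∀ i, 0 ≤ ((h'' : Fin d → ℤ) - (m : Fin d → ℤ)) ⬝ᵥ σ.v i := by
            intro i
            have e3 : (g : Fin d → ℤ) ⬝ᵥ σ.v i + q * ((h'' : Fin d → ℤ) ⬝ᵥ σ.v i) =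
                q * ((m : Fin d → ℤ) ⬝ᵥ σ.v i) + (h : Fin d → ℤ) ⬝ᵥ σ.v i := by
              have := congrArg (fun z : σ.dual => (z : Fin d → ℤ) ⬝ᵥ σ.v i) hh''
              change ((g : Fin d → ℤ) + q • (h'' : Fin d → ℤ)) ⬝ᵥ σ.v i =
                (q • (m : Fin d → ℤ) + (h : Fin d → ℤ)) ⬝ᵥ σ.v i at this
              rw [add_dotProduct, add_dotProduct, smul_dotProduct, smul_dotProduct, nsmul_eq_mul,
                nsmul_eq_mul] at this
              exact this
            have e4 := hg i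
            have e5 := h.2 i
            rw [sub_dotProduct]
            by_contra hc
            push Not at hc
            have e6 : (h'' : Fin d → ℤ) ⬝ᵥ σ.v i - (m : Fin d → ℤ) ⬝ᵥ σ.v i ≤ -1 := by omega
            have e7 : (0:ℤ) < q := by exact_mod_cast hp
            nlinarith
          refine ⟨⟨(h'' : Fin d → ℤ) - (m : Fin d → ℤ), e2⟩, ?_⟩
          apply Subtype.ext
          funext l
          have e8 := congrArg (fun z : σ.dual => (z : Fin d → ℤ) l) hh''
          change ((g : Fin d → ℤ) + q • (h'' : Fin d → ℤ)) l = (q • (m : Fin d → ℤ) + (h : Fin d → ℤ)) l at e8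
          change ((g : Fin d → ℤ) + q • ((h'' : Fin d → ℤ) - (m : Fin d → ℤ))) l = (h : Fin d → ℤ) l
          simp only [Pi.add_apply, Pi.mul_apply, Pi.natCast_apply, Pi.sub_apply,
            nsmul_eq_mul] at e8 ⊢
          linarith
      exact DFunLike.congr_fun h1 x
    -- now in a
    let L : AddMonoidAlgebra k σ.dual →+ AddMonoidAlgebra k σ.dual :=
      { toFun := fun a => ψ (a ^ q * x)
        map_zero' := by simp [hp.ne']
        map_add' := by
          intro a b
          rw [hq, add_pow_expChar_pow, add_mul, map_add] }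
    have h2 : L = AddMonoidHom.mulRight (ψ x) := by
      apply addMonoidHom_ext
      intro m c
      exact step1 m c x
    exact DFunLike.congr_fun h2 a
  · rw [hψs]
    have h1 := hT1 0 1
    rw [smul_zero, add_zero] at h1
    rw [h1, hκ1]; rfl

lemma split_of_monomial (p : ℕ) [Fact p.Prime] [CharP k p] (e : ℕ) (g : σ.dual)
    (hg : ∀ i, (g : Fin d → ℤ) ⬝ᵥ σ.v i < (p ^ e : ℕ)) :
    FrobSplits (σ.ring k) (p ^ e) (algebraMap _ _ (single g (1:k))) := by
  obtain ⟨ψ, h1, h2⟩ := exists_monomial_split σ k p e g hg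
  have hp : 0 < p ^ e := pow_pos (Nat.Prime.pos Fact.out) e
  obtain ⟨φ, h3, h4⟩ := extend_localization (R := σ.ring k)
    (σ.originIdeal k).primeCompl (p ^ e) hp ψ h1
  refine ⟨φ, h3, ?_⟩
  rw [h4, h2, map_one]

lemma monomial_mem (s : Finset (Fin d)) (b : Fin d → σ.dual) (hb : ∀ j ∈ s, b j ≠ 0) (n : Fin d → ℕ) :
    single (∑ j ∈ s, n j • b j) (1:k) ∈ (σ.originIdeal k) ^ (∑ j ∈ s, n j) := by
  classical
  induction s using Finset.induction_on with
  | empty => simp
  | insert j s hj ih =>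
    rw [Finset.sum_insert hj, Finset.sum_insert hj, pow_add]
    have h1 : single (n j • b j + ∑ x ∈ s, n x • b x) (1:k) =
        single (n j • b j) 1 * single (∑ x ∈ s, n x • b x) 1 := by
      rw [single_mul_single, one_mul]
    rw [h1]
    apply Ideal.mul_mem_mul
    · have h2 : single (n j • b j) (1:k) = (single (b j) 1) ^ (n j) := by
        rw [single_pow, one_pow]
      rw [h2]
      apply Ideal.pow_mem_pow
      rw [mem_originIdeal_iff, coeff_single, Finsupp.single_apply, if_neg (hb j (Finset.mem_insert_self _ _))]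
    · exact ih fun x hx => hb x (Finset.mem_insert_of_mem hx)

end lower

lemma fin_val_two (r : ℕ) : ((2 : Fin (r + 3)) : ℕ) = 2 := by
  change 2 % (r + 3) = 2
  exact Nat.mod_eq_of_lt (by omega)

lemma fin_one_ne_zero (r : ℕ) : (1 : Fin (r + 3)) ≠ 0 := by simp

lemma fin_two_ne_zero (r : ℕ) : (2 : Fin (r + 3)) ≠ 0 := by
  rw [Ne, Fin.ext_iff, fin_val_two]; simp

lemma fin_two_ne_one (r : ℕ) : (2 : Fin (r + 3)) ≠ 1 := by
  rw [Ne, Fin.ext_iff, fin_val_two]; simp

/-- special ray `-2 e₀ + e₁ + e₂` -/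
def specialRay (r : ℕ) : Fin (r + 3) → ℤ :=
  Pi.single 0 (-2) + Pi.single 1 1 + Pi.single 2 1

lemma dot_special (r : ℕ) (g : Fin (r + 3) → ℤ) : g ⬝ᵥ specialRay r = - 2 * g 0 + g 1 + g 2 := by
  rw [specialRay, dotProduct_add, dotProduct_add, dotProduct_single, dotProduct_single,
    dotProduct_single]
  ring

lemma dot_single (r : ℕ) (g : Fin (r + 3) → ℤ) (j : Fin (r + 3)) :
    g ⬝ᵥ (Pi.single j 1 : Fin (r + 3) → ℤ) = g j := by
  rw [dotProduct_single, mul_one]

/-- the cone of `S(2,1) × 𝔸^r` -/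
def exampleCone (r : ℕ) : Cone (r + 3) where
  ι := Option (Fin (r + 3))
  fin := inferInstance
  v := fun o => o.elim (specialRay r) (fun j => Pi.single j 1)
  full := by
    intro g hg
    funext j
    have := hg (some j)
    simpa [dot_single] using this
  pointed := by
    refine ⟨fun j => if j = 0 then 1 else 2, ?_⟩
    rintro (_ | j)
    · simp only [Option.elim]
      rw [dot_special]
      have h1 := fin_one_ne_zero r
      have h2 := fin_two_ne_zero r
      simp [h1, h2]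
    · simp only [Option.elim]
      rw [dot_single]
      split_ifs <;> norm_num
  primitive := by
    rintro (_ | j)
    · refine ⟨Pi.single 1 1, ?_⟩
      simp only [Option.elim]
      rw [dot_special]
      have h1 := fin_one_ne_zero r
      have h2 := fin_two_ne_one r
      simp [h1.symm, h2]
    · refine ⟨Pi.single j 1, ?_⟩
      simp only [Option.elim]
      rw [dot_single]
      simp
  extremal := by
    have h10 := fin_one_ne_zero r
    have h20 := fin_two_ne_zero r
    have h21 := fin_two_ne_one r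
    rintro (_ | j)
    · refine ⟨fun _ => 1, ?_, ?_⟩
      · simp only [Option.elim]
        rw [dot_special]; norm_num
      · rintro (_ | l) hl
        · exact absurd rfl hl
        · simp only [Option.elim]
          rw [dot_single]; norm_num
    · by_cases hj0 : j = 0
      · subst hj0
        refine ⟨fun l => if l = 0 then 0 else 1, ?_, ?_⟩
        · simp only [Option.elim]
          rw [dot_single]; simp
        · rintro (_ | l) hl
          · simp only [Option.elim]
            rw [dot_special]; simp [h10, h20]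
          · have : l ≠ 0 := fun h => hl (by rw [h])
            simp only [Option.elim]
            rw [dot_single]; simp [this]
      · by_cases hj1 : j = 1
        · subst hj1
          refine ⟨fun l => if l = 1 then 0 else if l = 2 then 3 else 1, ?_, ?_⟩
          · simp only [Option.elim]
            rw [dot_single]; simp
          · rintro (_ | l) hl
            · simp only [Option.elim]
              rw [dot_special]; simp [h10.symm, h20.symm, h21]
            · have : l ≠ 1 := fun h => hl (by rw [h])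
              simp only [Option.elim]
              rw [dot_single]; simp only [this, if_false]; split_ifs <;> norm_num
        · by_cases hj2 : j = 2
          · subst hj2
            refine ⟨fun l => if l = 2 then 0 else if l = 1 then 3 else 1, ?_, ?_⟩
            · simp only [Option.elim]
              rw [dot_single]; simp
            · rintro (_ | l) hl
              · simp only [Option.elim]
                rw [dot_special]; simp [h10.symm, h20.symm, h21.symm]
              · have : l ≠ 2 := fun h => hl (by rw [h])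
                simp only [Option.elim]
                rw [dot_single]; simp only [this, if_false]; split_ifs <;> norm_num
          · refine ⟨fun l => if l = j then 0 else if l = 0 then 1 else 2, ?_, ?_⟩
            · simp only [Option.elim]
              rw [dot_single]; simp
            · rintro (_ | l) hl
              · simp only [Option.elim]
                rw [dot_special]
                simp [Ne.symm hj0, Ne.symm hj1, Ne.symm hj2, h10, h20]
              · have : l ≠ j := fun h => hl (by rw [h])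
                simp only [Option.elim]
                rw [dot_single]; simp only [this, if_false]; split_ifs <;> norm_num

lemma example_not_qgor (r : ℕ) : ¬ (exampleCone r).IsQGorenstein := by
  rintro ⟨u, hu⟩
  have h0 : ∀ j : Fin (r + 3), u j = 1 := by
    intro j
    have := hu (some j)
    simpa [exampleCone, Pi.single_apply] using this
  have h1 := hu none
  have h2 : ∑ j, u j * ((specialRay r j : ℤ) : ℚ) = 1 := h1
  have h3 : ∑ j, u j * ((specialRay r j : ℤ) : ℚ) = 0 := by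
    have : ∀ j, u j * ((specialRay r j : ℤ) : ℚ) = ((1 * specialRay r j : ℤ) : ℚ) := by
      intro j; rw [h0 j]; push_cast; ring
    simp_rw [this]
    rw [← Int.cast_sum]
    have h4 : ∑ j, 1 * specialRay r j = 0 := dot_special r (fun _ => 1)
    rw [h4]; rfl
  rw [h3] at h2
  norm_num at h2

/-- upper bound -/
theorem upper {d : ℕ} (p : ℕ) [Fact p.Prime] (k : Type) [Field k]
    (σ : Cone d) (h : ¬ σ.IsQGorenstein) (t : ℝ)
    (ht : FPurePair (σ.ring k) p (IsLocalRing.maximalIdeal (σ.ring k)) t) : t ≤ d - 3 / 2 := by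
  obtain ⟨y, hy0, hy1, hy2⟩ := exists_weights σ h
  obtain ⟨e₀, he₀⟩ := ht
  obtain ⟨f, hf, hs⟩ := he₀ (e₀ + 1) (by omega)
  have hp1 : 1 < p := Nat.Prime.one_lt Fact.out
  have hq : 0 < p ^ (e₀ + 1) := pow_pos (by omega) _
  have hq1 : 1 < p ^ (e₀ + 1) := Nat.one_lt_pow (by omega) hp1
  have h1 := split_bound σ k y hy0 hy2 (p ^ (e₀ + 1)) hq _ f hf hs
  have h2 : ((⌈t * ((p : ℝ) ^ (e₀ + 1) - 1)⌉₊ : ℕ) : ℝ) ≤ ((p : ℝ) ^ (e₀ + 1) - 1) * (d - 3 / 2) := by
    have h3 : ((⌈t * ((p : ℝ) ^ (e₀ + 1) - 1)⌉₊ : ℕ) : ℚ) ≤ (((p ^ (e₀ + 1) : ℕ) : ℚ) - 1) * (d - 3 / 2) := by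
      refine le_trans h1 ?_
      apply mul_le_mul_of_nonneg_left hy1
      have : (1:ℚ) < ((p ^ (e₀ + 1) : ℕ) : ℚ) := by exact_mod_cast hq1
      linarith
    have h4 := (Rat.cast_le (K := ℝ)).2 h3
    push_cast at h4
    exact h4
  have h5 : t * ((p : ℝ) ^ (e₀ + 1) - 1) ≤ ((p : ℝ) ^ (e₀ + 1) - 1) * (d - 3 / 2) :=
    le_trans (Nat.le_ceil _) h2
  have h6 : (0:ℝ) < (p : ℝ) ^ (e₀ + 1) - 1 := by
    have : (1:ℝ) < (p:ℝ) ^ (e₀ + 1) := by exact_mod_cast hq1
    linarith
  rw [mul_comm] at h5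
  exact le_of_mul_le_mul_left h5 h6

open AddMonoidAlgebra in
/-- lower bound for the example -/
theorem lower (r : ℕ) (p : ℕ) [Fact p.Prime] (k : Type) [Field k] [CharP k p] (t : ℝ)
    (ht : t < r + 3 / 2) :
    FPurePair ((exampleCone r).ring k) p (IsLocalRing.maximalIdeal ((exampleCone r).ring k)) t := by
  classical
  have hp1 : 1 < p := Nat.Prime.one_lt Fact.out
  -- choose e₀
  obtain ⟨e₀, he₀⟩ : ∃ e₀ : ℕ, 5 / 2 / ((r : ℝ) + 3 / 2 - t) + 1 < (p : ℝ) ^ e₀ :=
    pow_unbounded_of_one_lt _ (by exact_mod_cast hp1)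
  refine ⟨e₀, ?_⟩
  intro e he
  set q := p ^ e with hq
  have hq0 : 0 < q := pow_pos (by omega) _
  obtain ⟨s, hs⟩ : ∃ s, q = s + 1 := ⟨q - 1, by omega⟩
  set m := s / 2 with hm
  have h2m : 2 * m ≤ s := by omega
  have h2m' : s ≤ 2 * m + 1 := by omega
  have h10 := fin_one_ne_zero r
  have h20 := fin_two_ne_zero r
  have h21 := fin_two_ne_one r
  -- the monomials
  let B : Fin (r + 3) → Fin (r + 3) → ℤ := fun j =>
    if j = 0 then Pi.single 0 1 + Pi.single 1 1 + Pi.single 2 1 else Pi.single j 1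
  have hB : ∀ j i, 0 ≤ B j ⬝ᵥ (exampleCone r).v i := by
    intro j
    simp only [B]
    rintro (_ | l)
    · change 0 ≤ _ ⬝ᵥ specialRay r
      rw [dot_special]
      by_cases hj : j = 0
      · simp [hj, h10, h20, h21, h10.symm, h20.symm, h21.symm]
      · simp only [hj, if_false, Pi.single_apply, Ne.symm hj]
        split_ifs <;> norm_num
    · change 0 ≤ _ ⬝ᵥ (Pi.single l 1 : Fin (r + 3) → ℤ)
      rw [dot_single]
      by_cases hj : j = 0
      · simp only [hj, if_true, Pi.add_apply, Pi.single_apply]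
        split_ifs <;> norm_num
      · simp only [hj, if_false, Pi.single_apply]
        split_ifs <;> norm_num
  obtain ⟨b, hb⟩ : ∃ b : Fin (r + 3) → (exampleCone r).dual, ∀ j, (b j : Fin (r + 3) → ℤ) =
      if j = 0 then Pi.single 0 1 + Pi.single 1 1 + Pi.single 2 1 else Pi.single j 1 :=
    ⟨fun j => ⟨B j, hB j⟩, fun j => rfl⟩
  have hbne : ∀ j, b j ≠ 0 := by
    intro j h0
    have h1 := hb j
    rw [h0] at h1
    have h2 := congrFun h1 j
    by_cases hj : j = 0
    · rw [hj] at h2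
      simp [h10.symm, h20.symm] at h2
    · simp [hj] at h2
  let n : Fin (r + 3) → ℕ := fun j => if j = 0 ∨ j = 1 ∨ j = 2 then m else s
  set g : (exampleCone r).dual := ∑ j, n j • b j with hg
  have hgval : ∀ l, (g : Fin (r + 3) → ℤ) l =
      if l = 0 then (m:ℤ) else if l = 1 ∨ l = 2 then 2 * m else s := by
    intro l
    have h1 : (g : Fin (r + 3) → ℤ) l = ∑ j, (n j : ℤ) * (b j : Fin (r + 3) → ℤ) l := by
      rw [hg]
      rw [AddSubmonoid.coe_finsetSum]
      rw [Finset.sum_apply]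
      refine Finset.sum_congr rfl fun j _ => ?_
      change (n j • (b j : Fin (r + 3) → ℤ)) l = _
      rw [Pi.smul_apply, nsmul_eq_mul]
    rw [h1]
    have h2 : ∀ j, (n j : ℤ) * (b j : Fin (r + 3) → ℤ) l =
        (if j = l then (n j : ℤ) else 0) + (if j = 0 then (if l = 1 ∨ l = 2 then (m:ℤ) else 0) else 0) := by
      intro j
      rw [hb j]
      by_cases hj : j = 0
      · subst hj
        have hn : n 0 = m := by simp [n]
        rw [hn]
        by_cases hl0 : l = 0
        · subst hl0; simp [h10.symm, h20.symm]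
        · by_cases hl1 : l = 1
          · subst hl1; simp [h10, h10.symm, h21.symm]
          · by_cases hl2 : l = 2
            · subst hl2; simp [h20, h20.symm, h21]
            · simp [hl0, hl1, hl2, Ne.symm hl0]
      · by_cases hl : j = l
        · subst hl; simp [hj]
        · simp [hj, hl, Ne.symm hl]
    simp_rw [h2]
    rw [Finset.sum_add_distrib, Finset.sum_ite_eq' , Finset.sum_ite_eq']
    simp only [Finset.mem_univ, if_true]
    by_cases hl0 : l = 0
    · subst hl0; simp [n, h10.symm, h20.symm]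
    · by_cases hl1 : l = 1
      · subst hl1; simp [n, h10]; ring
      · by_cases hl2 : l = 2
        · subst hl2; simp [n, h20]; ring
        · simp [n, hl0, hl1, hl2]
  have hgi : ∀ i, (g : Fin (r + 3) → ℤ) ⬝ᵥ (exampleCone r).v i < (p ^ e : ℕ) := by
    rw [← hq, hs]
    rintro (_ | l)
    · change (g : Fin (r + 3) → ℤ) ⬝ᵥ specialRay r < _
      rw [dot_special, hgval, hgval, hgval]
      simp only [h10, h20, if_true, if_false, true_or, or_true]
      push_cast; omega
    · change (g : Fin (r + 3) → ℤ) ⬝ᵥ (Pi.single l 1 : Fin (r + 3) → ℤ) < _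
      rw [dot_single, hgval]
      split_ifs <;> push_cast <;> omega
  have hsplit := split_of_monomial (exampleCone r) k p e g hgi
  refine ⟨_, ?_, hsplit⟩
  -- membership
  have hmem : single g (1:k) ∈ ((exampleCone r).originIdeal k) ^ (∑ j, n j) :=
    monomial_mem (exampleCone r) k Finset.univ b (fun j _ => hbne j) n
  have hsumn : ∑ j, n j = 3 * m + r * s := by
    simp only [n]
    rw [Fin.sum_univ_succ, Fin.sum_univ_succ, Fin.sum_univ_succ]
    have e1 : ∀ i : Fin r, (if i.succ.succ.succ = (0 : Fin (r + 3)) ∨ i.succ.succ.succ = 1 ∨ i.succ.succ.succ = 2 then m else s) = s := by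
      intro i
      rw [if_neg]
      rintro (h | h | h)
      · rw [Fin.ext_iff] at h; simp at h
      · rw [Fin.ext_iff] at h; simp at h
      · rw [Fin.ext_iff, fin_val_two] at h; simp at h
    simp_rw [e1]
    have e2 : (Fin.succ 0 : Fin (r + 3)) = 1 := rfl
    have e3 : (Fin.succ (Fin.succ 0) : Fin (r + 3)) = 2 := by
      rw [Fin.ext_iff, fin_val_two]; simp
    rw [e3, e2]
    simp
    ring
  have hle : ⌈t * ((p : ℝ) ^ e - 1)⌉₊ ≤ ∑ j, n j := by
    rw [hsumn, Nat.ceil_le]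
    have hqs : (p : ℝ) ^ e - 1 = s := by
      have : ((p ^ e : ℕ) : ℝ) = (s : ℝ) + 1 := by rw [← hq, hs]; push_cast; ring
      push_cast at this
      linarith
    rw [hqs]
    have h1 : (s : ℝ) ≤ 2 * m + 1 := by exact_mod_cast h2m'
    have h2 : 5 / 2 / ((r : ℝ) + 3 / 2 - t) < s := by
      have h3 : (p : ℝ) ^ e₀ ≤ (p : ℝ) ^ e := pow_le_pow_right₀ (by exact_mod_cast hp1.le) he
      linarith
    have h4 : (0:ℝ) < (r : ℝ) + 3 / 2 - t := by linarith
    rw [div_lt_iff₀ h4] at h2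
    push_cast
    nlinarith
  rw [← IsLocalization.AtPrime.map_eq_maximalIdeal ((exampleCone r).originIdeal k) ((exampleCone r).ring k), ← Ideal.map_pow]
  exact Ideal.mem_map_of_mem _ (Ideal.pow_le_pow_right hle hmem)

/-- **Main theorem.**  For every `d ≥ 3`: if the toric local ring `R` of a `d`-dimensional cone over a
field of characteristic `p` is not ℚ-Gorenstein then `fpt(𝔪) ≤ d - 3/2`; and for every prime `p`
and every field of characteristic `p` there is such a ring with `fpt(𝔪) = d - 3/2`. -/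
theorem result (d : ℕ) (hd : 3 ≤ d) :
    (∀ (p : ℕ) [Fact p.Prime] (k : Type) [Field k] [CharP k p] (σ : Cone d), ¬ σ.IsQGorenstein →
      σ.fptMax p k ≤ d - 3 / 2) ∧
    (∀ (p : ℕ) [Fact p.Prime] (k : Type) [Field k] [CharP k p], ∃ σ : Cone d, ¬ σ.IsQGorenstein ∧
      σ.fptMax p k = d - 3 / 2) := by
  have hd' : (3:ℝ) ≤ d := by exact_mod_cast hd
  have hup : ∀ (p : ℕ) [Fact p.Prime] (k : Type) [Field k] [CharP k p] (σ : Cone d),
      ¬ σ.IsQGorenstein → σ.fptMax p k ≤ d - 3 / 2 := by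
    intro p _ k _ _ σ hσ
    apply Real.sSup_le
    · rintro t ⟨_, ht⟩
      exact upper p k σ hσ t ht
    · linarith
  refine ⟨hup, ?_⟩
  intro p _ k _ _
  obtain ⟨r, rfl⟩ : ∃ r, d = r + 3 := ⟨d - 3, by omega⟩
  refine ⟨exampleCone r, example_not_qgor r, ?_⟩
  apply le_antisymm (hup p k (exampleCone r) (example_not_qgor r))
  apply le_of_forall_lt
  intro c hc
  set t := max c 0 with htdef
  have hr : (0:ℝ) ≤ r := Nat.cast_nonneg r
  have hlt : t < (r:ℝ) + 3 / 2 := by
    apply max_lt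
    · push_cast at hc; linarith
    · linarith
  obtain ⟨t', h1, h2⟩ := exists_between hlt
  have hmem : t' ∈ {t : ℝ | 0 ≤ t ∧ FPurePair ((exampleCone r).ring k) p (IsLocalRing.maximalIdeal ((exampleCone r).ring k)) t} :=
    ⟨le_trans (le_max_right _ _) h1.le, lower r p k t' h2⟩
  have hbdd : BddAbove {t : ℝ | 0 ≤ t ∧ FPurePair ((exampleCone r).ring k) p (IsLocalRing.maximalIdeal ((exampleCone r).ring k)) t} :=
    ⟨_, fun t ht => upper p k (exampleCone r) (example_not_qgor r) t ht.2⟩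
  have := le_csSup hbdd hmem
  calc c ≤ t := le_max_left _ _
    _ < t' := h1
    _ ≤ _ := this

end Pool.Agent.Lib_helper26.Superseded.ToricMax
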